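import Pool.Agent.Lib.MP_6e81d8_ag.H54.Middle

/-! The whole game: big points first, then the three phases. -/

set_option autoImplicit false
set_option linter.unusedSectionVars false

namespace Pool.Agent.SHGH54

open Finset

variable {ι : Type} [DecidableEq ι]
variable {n : ℕ} {μ : ι → ℕ} {W : (ℕ → ℕ) → (ℕ → ℕ → ℕ) → Finset ι → ℕ → Prop}

theorem std_valid (c : ℕ → ℕ) (j : ℕ) : Valid c j (fun k => j - k) := by
  refine ⟨fun k k' h1 h2 => by simp only at h1 h2; omega, fun k hk => ?_⟩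
  have := Finset.card_filter_le (range k)
    (fun t => c t ≠ 0 ∧ ¬ (c t ≤ j - t ∧ j - t < j - k))
  rw [Finset.card_range] at this
  simp only at hk ⊢
  omega

theorem big_moves (R : Rules n μ W) (y : ℕ) (S : Finset ι) : ∀ (Fr : Finset ι) (c : ℕ → ℕ),
    S ⊆ Fr → W (fun k => c k - ∑ i ∈ S, (μ i - k)) 0 (Fr \ S) y → W c 0 Fr y := by
  induction S using Finset.induction_on with
  | empty => intro Fr c _ h; simpa using h
  | insert i S hi ih =>
    intro Fr c hS h
    have hiF : i ∈ Fr := hS (Finset.mem_insert_self _ _)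
    refine R.move c 0 Fr y i hiF _ (std_valid c (μ i)) 0 (fun _ _ _ => Or.inl le_rfl) ?_
    refine ih (Fr.erase i) _ (fun a ha => Finset.mem_erase.mpr
      ⟨fun h => hi (h ▸ ha), hS (Finset.mem_insert_of_mem ha)⟩) ?_
    have e1 : Fr.erase i \ S = Fr \ insert i S := by
      ext a; simp only [mem_sdiff, mem_erase, mem_insert]; tauto
    rw [e1]
    refine R.mono h (fun k _ => ?_) (fun _ _ _ => le_rfl) le_rfl
    rw [Finset.sum_insert hi]
    omega

theorem sum_sub_le (S : Finset ι) (k : ℕ) :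
    ∑ i ∈ S, (μ i - k) = 0 ∨ ∑ i ∈ S, (μ i - k) + k ≤ ∑ i ∈ S, μ i := by
  induction S using Finset.induction_on with
  | empty => left; rfl
  | insert i S hi ih =>
    rw [Finset.sum_insert hi, Finset.sum_insert hi]
    have : ∑ i ∈ S, (μ i - k) ≤ ∑ i ∈ S, μ i := Finset.sum_le_sum fun _ _ => Nat.sub_le _ _
    omega

theorem sum_sub_succ (S : Finset ι) (k : ℕ) :
    ∑ i ∈ S, (μ i - k) = 0 ∨ ∑ i ∈ S, (μ i - (k + 1)) + 1 ≤ ∑ i ∈ S, (μ i - k) := by
  induction S using Finset.induction_on with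
  | empty => left; rfl
  | insert i S hi ih =>
    rw [Finset.sum_insert hi, Finset.sum_insert hi]
    have : ∑ i ∈ S, (μ i - (k + 1)) ≤ ∑ i ∈ S, (μ i - k) :=
      Finset.sum_le_sum fun _ _ => by omega
    omega

theorem sum_range_sub (n j : ℕ) (hj : j ≤ n) : ∑ k ∈ range n, (j - k) = tri j := by
  have h1 := sum_sub_tri j 0
  simp only [Nat.zero_le, if_true, Nat.sub_zero] at h1
  rw [← h1]
  symm
  apply Finset.sum_subset (Finset.range_subset_range.mpr hj)
  intro k _ hk
  have : ¬ k < j := fun h => hk (Finset.mem_range.mpr h)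
  omega

/-- The game is won from the full triangle. -/
theorem game [Fintype ι] (R : Rules n μ W) (S : Finset ι) (M e : ℕ) (hμ : ∀ i, 1 ≤ μ i)
    (hS : ∑ i ∈ S, μ i ≤ n) (hM : ∀ i ∈ S, μ i ≤ M) (hM' : M = 0 ∨ ∃ i ∈ S, μ i = M)
    (hm : ∀ i, i ∉ S → μ i ≤ e + 3) (hD : M + 3 * (e + 3) ≤ n)
    (hnum : (tri (e + 3) * (e + 3) + e) * (tri (e + 3) + tri (2 * (e + 3) - 2)) +
      e * tri ((e + 3) * (e + 3) + (e + 3)) ≤ e * tri (n - (M + (e + 3) - 1)))
    (y : ℕ) (hy : tri n ≤ y + len μ Finset.univ) : W (fun k => n - k) 0 Finset.univ y := by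
  refine big_moves R y S _ _ (Finset.subset_univ _) ?_
  set s : ℕ → ℕ := fun k => ∑ i ∈ S, (μ i - k) with hs
  have hs0 : ∀ k, M ≤ k → s k = 0 := fun k hk =>
    Finset.sum_eq_zero fun i hi => by have := hM i hi; omega
  have hs1 : ∀ k, s k = 0 ∨ s k + k ≤ n := fun k => by
    have := sum_sub_le (μ := μ) S k
    simp only [hs]
    omega
  have hsplit : ∀ k < M, ∃ s' : ℕ → ℕ, (∀ t, s t = (M - t) + s' t) ∧
      (s' k = 0 ∨ s' (k + 1) + 1 ≤ s' k) ∧ s' (k + 1) ≤ s' k := by
    intro k hk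
    rcases hM' with h | ⟨i0, hi0, h⟩
    · omega
    · refine ⟨fun t => ∑ i ∈ S.erase i0, (μ i - t), fun t => ?_, sum_sub_succ _ k,
        Finset.sum_le_sum fun _ _ => by omega⟩
      simp only [hs]
      rw [← Finset.add_sum_erase _ _ hi0, h]
  have harea : ∑ k ∈ range n, (n - k - s k) + len μ S = tri n := by
    have h1 : len μ S = ∑ k ∈ range n, s k := by
      simp only [hs, len]
      rw [Finset.sum_comm]
      refine Finset.sum_congr rfl fun i hi => (sum_range_sub n (μ i) ?_).symm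
      have := hM i hi
      omega
    rw [h1, ← Finset.sum_add_distrib, ← sum_range_sub n n le_rfl]
    refine Finset.sum_congr rfl fun k _ => ?_
    have := hs1 k
    omega
  have hlen : len μ (Finset.univ \ S) + len μ S = len μ Finset.univ :=
    Finset.sum_sdiff (Finset.subset_univ _)
  have hg : ∀ k, n - k - s k ≤ min (n - M) (n - k) := by
    intro k
    rcases lt_or_ge k M with hk | hk
    · obtain ⟨s', h1, -⟩ := hsplit k hk
      have := h1 k
      omega
    · omega
  have hK : ∀ k, (k < M ∧ n - k - s k + 1 ≤ n - (k + 1) - s (k + 1)) ∨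
      (n - k - s k = min (n - M) (n - k) ∧ n - k - s k ≤ n - (k + 1) - s (k + 1) + 1) := by
    intro k
    rcases lt_or_ge k M with hk | hk
    · obtain ⟨s', h1, h2, h3⟩ := hsplit k hk
      have := h1 k
      have := h1 (k + 1)
      have := hs1 k
      omega
    · have := hs0 k hk
      have := hs0 (k + 1) (by omega)
      omega
  have hpos : ∀ k, 1 ≤ k → k < n → n - k - s k ≠ 0 := by
    intro k hk1 hkn
    rcases lt_or_ge k M with hk | hk
    · have h1 := hK (k - 1)
      have h2 := hK k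
      rw [show k - 1 + 1 = k by omega] at h1
      omega
    · have := hs0 k hk
      omega
  have hI : ∃ b, InvP n M (e + 3) b (fun k => n - k - s k) := by
    have hK' : ∀ k, (k < M ∧ n - k - s k + 1 ≤ n - (k + 1) - s (k + 1)) ∨
        min (n - M) (n - k) + (e + 3) * (n - k - s k) ≤
          (e + 3) * (n - (k + 1) - s (k + 1) + 1) + (n - k - s k) := by
      intro k
      rcases hK k with h | ⟨h1, h2⟩
      · exact Or.inl h
      · right
        have := Nat.mul_le_mul_left (e + 3) h2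
        omega
    by_cases h0 : n - 0 - s 0 = 0
    · refine ⟨1, fun k hk => ?_, by omega, hg, hpos, fun k _ => hK' k⟩
      rw [show k = 0 by omega]; exact h0
    · refine ⟨0, fun k hk => by omega, by omega, hg, fun k _ hk => ?_, fun k _ => hK' k⟩
      rcases Nat.eq_zero_or_pos k with rfl | h
      · exact h0
      · exact hpos k h hk
  obtain ⟨b, hI⟩ := hI
  refine phaseA R M (e + 3) (by omega) hD ?_ _
    (fun i hi => ⟨hμ i, hm i (Finset.mem_sdiff.mp hi).2⟩) b _ y
    (y + len μ (Finset.univ \ S) - ∑ k ∈ range n, (n - k - s k)) hI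
    (show ∑ k ∈ range n, (n - k - s k) + _ = _ by omega) fun k hk => ?_
  · intro Fr hFr b c y B hMb hI hB hA
    have hB' : InvB n e b c 0 0 := by
      refine ⟨fun k hk => ⟨hI.low k hk, rfl, rfl⟩, hI.hb, fun k _ => ?_, hI.hz, fun k hk => ?_,
        by simp, by simp⟩
      · have := hI.hg k
        simp only [Pi.zero_apply]
        omega
      · rcases hI.hK k hk with h | h
        · omega
        · rw [show min (n - M) (n - k) = n - k by omega] at h
          simpa using h
    refine R.mono (phaseB R M e _ Fr hFr b c 0 0 y B hMb hB' hB ?_ (Nat.lt_succ_self _))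
      (fun _ _ => le_rfl) (fun w k _ => by simp [mkN]) le_rfl
    have h1 : e * tri (n - (M + (e + 3) - 1)) ≤
        e * ((∑ k ∈ range n, c k - tri ((e + 3) * (e + 3) + (e + 3))) +
          tri ((e + 3) * (e + 3) + (e + 3))) := Nat.mul_le_mul_left _ (by omega)
    rw [mul_add] at h1
    omega
  · have := hs0 k (by omega)
    show n - k ≤ n - k - s k
    omega

/-- The numerical condition. -/
theorem numeric (e x : ℕ) (he : 7 ≤ e) (hx : 15 * (e + 3) ^ 2 + 32 * (e + 3) + 16 ≤ 8 * x) :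
    (tri (e + 3) * (e + 3) + e) * (tri (e + 3) + tri (2 * (e + 3) - 2)) +
      e * tri ((e + 3) * (e + 3) + (e + 3)) ≤ e * tri x := by
  obtain ⟨u, rfl⟩ := Nat.exists_eq_add_of_le he
  have h1 := two_tri (7 + u + 3)
  have h2 := two_tri (2 * (7 + u + 3) - 2)
  rw [show 2 * (7 + u + 3) - 2 = 2 * u + 18 by omega] at h2 ⊢
  have h3 := two_tri ((7 + u + 3) * (7 + u + 3) + (7 + u + 3))
  have h4 := two_tri x
  generalize tri (7 + u + 3) = t at *
  generalize tri (2 * u + 18) = t2 at *
  generalize tri ((7 + u + 3) * (7 + u + 3) + (7 + u + 3)) = t1 at *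
  generalize tri x = tx at *
  set X := 15 * (7 + u + 3) ^ 2 + 32 * (7 + u + 3) + 16 with hX
  have h5 : X * (X + 8) ≤ (8 * x) * (8 * x + 8) := Nat.mul_le_mul hx (by omega)
  have h6 : X * (X + 8) ≤ 128 * tx := by nlinarith
  have h7 : (7 + u) * (X * (X + 8)) ≤ (7 + u) * (128 * tx) := Nat.mul_le_mul_left _ h6
  have h8 : 128 * ((t * (7 + u + 3) + (7 + u)) * (t + t2) + (7 + u) * t1) =
      32 * (((2 * t) * (7 + u + 3) + 2 * (7 + u)) * (2 * t + 2 * t2)) + 64 * (7 + u) * (2 * t1) := by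
    ring
  rw [h1, h2, h3] at h8
  have h9 : 32 * (((7 + u + 3) * (7 + u + 3 + 1) * (7 + u + 3) + 2 * (7 + u)) *
      ((7 + u + 3) * (7 + u + 3 + 1) + (2 * u + 18) * (2 * u + 18 + 1))) + 64 * (7 + u) *
      (((7 + u + 3) * (7 + u + 3) + (7 + u + 3)) * ((7 + u + 3) * (7 + u + 3) + (7 + u + 3) + 1)) ≤
      (7 + u) * (X * (X + 8)) := by
    rw [hX]
    ring_nf
    omega
  nlinarith

end Pool.Agent.SHGH54
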