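import Mathlib

/-! Generic statements and one-parameter families of linear conditions. -/

set_option autoImplicit false

namespace Pool.Agent.SHGH54

open Polynomial Module

/-- `P` holds off a hypersurface. -/
def Generic {σ : Type} (P : (σ → ℂ) → Prop) : Prop :=
  ∃ δ : MvPolynomial σ ℂ, δ ≠ 0 ∧ ∀ x : σ → ℂ, MvPolynomial.eval x δ ≠ 0 → P x

theorem Generic.and {σ : Type} {P Q : (σ → ℂ) → Prop} (hP : Generic P) (hQ : Generic Q) :
    Generic (fun x => P x ∧ Q x) := by
  obtain ⟨a, ha, hPa⟩ := hP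
  obtain ⟨b, hb, hQb⟩ := hQ
  refine ⟨a * b, mul_ne_zero ha hb, fun x hx => ?_⟩
  rw [map_mul] at hx
  exact ⟨hPa x (left_ne_zero_of_mul hx), hQb x (right_ne_zero_of_mul hx)⟩

theorem Generic.mono {σ : Type} {P Q : (σ → ℂ) → Prop} (hP : Generic P) (h : ∀ x, P x → Q x) :
    Generic Q := by
  obtain ⟨a, ha, hPa⟩ := hP
  exact ⟨a, ha, fun x hx => h x (hPa x hx)⟩

theorem Generic.exists {σ : Type} {P : (σ → ℂ) → Prop} (hP : Generic P) : ∃ x, P x := by
  obtain ⟨a, ha, hPa⟩ := hP
  by_contra hne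
  apply ha
  apply MvPolynomial.funext
  intro x
  by_contra hx
  exact hne ⟨x, hPa x (by simpa using hx)⟩

theorem generic_of_forall {σ : Type} {P : (σ → ℂ) → Prop} (h : ∀ x, P x) : Generic P :=
  ⟨1, one_ne_zero, fun x _ => h x⟩

theorem generic_injective {σ ι : Type} [Fintype ι] (e : ι → σ) (he : Function.Injective e) :
    Generic (fun x : σ → ℂ => Function.Injective (fun i => x (e i))) := by
  classical
  refine ⟨∏ ij ∈ (Finset.univ : Finset ι).offDiag,
    (MvPolynomial.X (e ij.1) - MvPolynomial.X (e ij.2)), ?_, ?_⟩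
  · rw [Finset.prod_ne_zero_iff]
    intro ij hij
    rw [Finset.mem_offDiag] at hij
    rw [sub_ne_zero]
    intro h
    exact hij.2.2 (he (MvPolynomial.X_injective h))
  · intro x hx i j hij
    by_contra hne
    apply hx
    rw [map_prod]
    refine Finset.prod_eq_zero (i := (i, j)) (by simp [Finset.mem_offDiag, hne]) ?_
    simp only [map_sub, MvPolynomial.eval_X]
    exact sub_eq_zero.mpr hij

theorem core {R K J : Type} [CommRing R] [Field K] (N : ℕ) (v : J → Fin N → R) (e0 : R →+* K)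
    (h : ∀ w : Fin N → K, (∀ j, ∑ l, e0 (v j l) * w l = 0) → w = 0) :
    ∃ δ : R, e0 δ ≠ 0 ∧ ∀ e : R →+* ℂ, e δ ≠ 0 →
      ∀ w : Fin N → ℂ, (∀ j, ∑ l, e (v j l) * w l = 0) → w = 0 := by
  classical
  set s : Set (Fin N → K) := Set.range (fun j => fun l => e0 (v j l)) with hs
  have htop : Submodule.span K s = ⊤ := by
    by_contra hne
    obtain ⟨φ, hφ0, hφ⟩ := Submodule.exists_le_ker_of_lt_top _ (lt_top_iff_ne_top.mpr hne)
    apply hφ0
    have hw : (fun l => φ (Pi.single l 1)) = 0 := by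
      apply h
      intro j
      have h1 : φ (fun l => e0 (v j l)) = 0 :=
        hφ (Submodule.subset_span ⟨j, rfl⟩)
      rw [LinearMap.pi_apply_eq_sum_univ] at h1
      rw [← h1]
      refine Finset.sum_congr rfl fun l _ => ?_
      rw [smul_eq_mul]
      congr 2
      funext k
      simp [Pi.single_apply, eq_comm]
    ext l
    simpa using congrFun hw l
  obtain ⟨f, hfs, -, hli⟩ := Submodule.exists_fun_fin_finrank_span_eq K s
  have hN : finrank K (Submodule.span K s) = N := by
    rw [htop, finrank_top]; simp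
  choose jj hjj using hfs
  let M : Matrix (Fin N) (Fin N) R := fun a l => v (jj (Fin.cast hN.symm a)) l
  refine ⟨M.det, ?_, ?_⟩
  · rw [RingHom.map_det]
    have hli2 : LinearIndependent K (e0.mapMatrix M).row := by
      have : (e0.mapMatrix M).row = f ∘ Fin.cast hN.symm := by
        funext a l
        have := congrFun (hjj (Fin.cast hN.symm a)) l
        exact this
      rw [this]
      exact hli.comp _ (Fin.cast_injective _)
    have := Matrix.linearIndependent_rows_iff_isUnit.mp hli2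
    exact ((Matrix.isUnit_iff_isUnit_det _).mp this).ne_zero
  · intro e he w hw
    rw [RingHom.map_det] at he
    apply Matrix.eq_zero_of_mulVec_eq_zero he
    funext a
    exact hw (jj (Fin.cast hN.symm a))

variable {U : Type} [AddCommGroup U] [Module ℂ U] [FiniteDimensional ℂ U]

theorem open_ker {R J : Type} [CommRing R] [Algebra ℂ R] (Φ : J → U →ₗ[ℂ] R) (e0 : R →ₐ[ℂ] ℂ)
    (h : ∀ u, (∀ j, e0 (Φ j u) = 0) → u = 0) :
    ∃ δ : R, e0 δ ≠ 0 ∧ ∀ e : R →ₐ[ℂ] ℂ, e δ ≠ 0 → ∀ u, (∀ j, e (Φ j u) = 0) → u = 0 := by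
  classical
  let b := Module.finBasis ℂ U
  have key : ∀ (e : R →ₐ[ℂ] ℂ) (w : Fin (finrank ℂ U) → ℂ) (j : J),
      e (Φ j (b.equivFun.symm w)) = ∑ l, (e : R →+* ℂ) (Φ j (b l)) * w l := by
    intro e w j
    simp [Basis.equivFun_symm_apply, map_sum, mul_comm]
  obtain ⟨δ, hδ, H⟩ := core (finrank ℂ U) (fun j l => Φ j (b l)) (e0 : R →+* ℂ) (by
    intro w hw
    have := h (b.equivFun.symm w) (fun j => by rw [key]; exact hw j)
    simpa using (LinearEquiv.map_eq_zero_iff _).mp this)
  refine ⟨δ, hδ, fun e he u hu => ?_⟩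
  have := H (e : R →+* ℂ) he (b.equivFun u) (fun j => by rw [← key]; simpa using hu j)
  simpa using (LinearEquiv.map_eq_zero_iff _).mp this

/-- A subspace has dimension at most `y` iff `y` functionals cut it to zero. -/
theorem finrank_le_iff_cut (W : Submodule ℂ U) (y : ℕ) :
    finrank ℂ W ≤ y ↔ ∃ ψ : U →ₗ[ℂ] (Fin y → ℂ), ∀ u ∈ W, ψ u = 0 → u = 0 := by
  constructor
  · intro h
    have h' : finrank ℂ W ≤ finrank ℂ (Fin y → ℂ) := by simpa using h
    obtain ⟨f, hf⟩ := finrank_le_iff_exists_linearMap.mp h'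
    obtain ⟨g, hg⟩ := LinearMap.exists_extend f
    refine ⟨g, fun u hu h0 => ?_⟩
    have h1 : f ⟨u, hu⟩ = 0 := by
      rw [← hg]; simpa using h0
    have := hf (h1.trans (map_zero f).symm)
    simpa using this
  · rintro ⟨ψ, hψ⟩
    have hinj : Function.Injective (ψ.domRestrict W) := by
      rw [injective_iff_map_eq_zero]
      intro a ha
      exact Subtype.ext (hψ a a.2 (by simpa using ha))
    simpa using LinearMap.finrank_le_finrank_of_injective hinj

/-- Semicontinuity of the dimension of the solution space of a polynomial family. -/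
theorem generic_of_exists {σ J : Type} (Φ : J → U →ₗ[ℂ] MvPolynomial σ ℂ)
    (S : (σ → ℂ) → Submodule ℂ U)
    (hS : ∀ x u, u ∈ S x ↔ ∀ j, MvPolynomial.eval x (Φ j u) = 0) (y : ℕ)
    (x0 : σ → ℂ) (h0 : finrank ℂ (S x0) ≤ y) :
    Generic (fun x => finrank ℂ (S x) ≤ y) := by
  obtain ⟨ψ, hψ⟩ := (finrank_le_iff_cut _ _).mp h0
  let Φ' : J ⊕ Fin y → U →ₗ[ℂ] MvPolynomial σ ℂ := fun j => match j with
    | Sum.inl j => Φ j
    | Sum.inr l => (Algebra.linearMap ℂ _) ∘ₗ (LinearMap.proj l) ∘ₗ ψ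
  obtain ⟨δ, hδ, H⟩ := open_ker Φ' (MvPolynomial.aeval x0) (by
    intro u hu
    refine hψ u ((hS x0 u).mpr fun j => ?_) ?_
    · simpa [Φ', MvPolynomial.aeval_eq_eval] using hu (Sum.inl j)
    · funext l
      simpa [Φ'] using hu (Sum.inr l))
  refine ⟨δ, fun h => hδ (by simp [h]), fun x hx => ?_⟩
  refine (finrank_le_iff_cut _ _).mpr ⟨ψ, fun u hu h1 => ?_⟩
  refine H (MvPolynomial.aeval x) (by simpa [MvPolynomial.aeval_eq_eval] using hx) u ?_
  rintro (j | l)
  · simpa [Φ', MvPolynomial.aeval_eq_eval] using (hS x u).mp hu j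
  · simp [Φ', h1]

/-- One-parameter dichotomy: trivial kernel for almost all parameters, or a polynomial family
of kernel vectors. -/
theorem fam {J : Type} (Φ : J → U →ₗ[ℂ] ℂ[X]) :
    (∃ δ : ℂ[X], δ ≠ 0 ∧ ∀ t : ℂ, δ.eval t ≠ 0 → ∀ u, (∀ j, (Φ j u).eval t = 0) → u = 0) ∨
    (∃ G : ℕ → U, (∃ B, ∀ ν, B ≤ ν → G ν = 0) ∧ (∃ ν, G ν ≠ 0) ∧
      ∀ j N, ∑ ν ∈ Finset.range (N + 1), (Φ j (G ν)).coeff (N - ν) = 0) := by
  classical
  let b := Module.finBasis ℂ U
  let K := FractionRing ℂ[X]
  by_cases h : ∀ w : Fin (finrank ℂ U) → K,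
      (∀ j, ∑ l, algebraMap ℂ[X] K (Φ j (b l)) * w l = 0) → w = 0
  · left
    obtain ⟨δ, hδ, H⟩ := core (finrank ℂ U) (fun j l => Φ j (b l)) (algebraMap ℂ[X] K) h
    refine ⟨δ, fun h0 => hδ (by simp [h0]), fun t ht u hu => ?_⟩
    have := H (Polynomial.evalRingHom t) (by simpa using ht) (b.equivFun u) (fun j => by
      have h1 := hu j
      rw [← b.sum_repr u, map_sum, Polynomial.eval_finsetSum] at h1
      rw [← h1]
      refine Finset.sum_congr rfl fun l _ => ?_
      simp [mul_comm])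
    simpa using (LinearEquiv.map_eq_zero_iff _).mp this
  · right
    push Not at h
    obtain ⟨w, hw, hw0⟩ := h
    obtain ⟨q, hq⟩ := IsLocalization.exist_integer_multiples_of_finite (nonZeroDivisors ℂ[X]) w
    choose z hz using hq
    have hinj : Function.Injective (algebraMap ℂ[X] K) := IsFractionRing.injective _ _
    have hq0 : algebraMap ℂ[X] K q ≠ 0 := fun h0 =>
      nonZeroDivisors.ne_zero q.2 (hinj (h0.trans (map_zero _).symm))
    have hzj : ∀ j, ∑ l, z l * Φ j (b l) = 0 := by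
      intro j
      apply hinj
      rw [map_sum, map_zero]
      have h1 := congrArg (fun a => algebraMap ℂ[X] K q * a) (hw j)
      simp only [mul_zero, Finset.mul_sum] at h1
      rw [← h1]
      refine Finset.sum_congr rfl fun l _ => ?_
      rw [map_mul, hz l, Algebra.smul_def]
      ring
    refine ⟨fun ν => ∑ l, (z l).coeff ν • b l, ⟨(Finset.univ.sup fun l => (z l).natDegree) + 1,
      fun ν hν => ?_⟩, ?_, ?_⟩
    · refine Finset.sum_eq_zero fun l _ => ?_
      have : (z l).natDegree ≤ Finset.univ.sup fun l => (z l).natDegree :=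
        Finset.le_sup (f := fun l => (z l).natDegree) (Finset.mem_univ l)
      rw [Polynomial.coeff_eq_zero_of_natDegree_lt (by omega), zero_smul]
    · by_contra hall
      push Not at hall
      apply hw0
      funext l
      have hzl : z l = 0 := by
        ext ν
        have h1 := hall ν
        have h2 := Fintype.linearIndependent_iff.mp b.linearIndependent _ h1 l
        simpa using h2
      have h3 := hz l
      rw [hzl, map_zero, Algebra.smul_def] at h3
      rcases mul_eq_zero.mp h3.symm with h4 | h4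
      · exact absurd h4 hq0
      · simpa using h4
    · intro j N
      have h1 := congrArg (fun p => Polynomial.coeff p N) (hzj j)
      simp only [Polynomial.finsetSum_coeff, Polynomial.coeff_zero, Polynomial.coeff_mul] at h1
      rw [← h1]
      simp only [map_sum, map_smul, Polynomial.finsetSum_coeff, Polynomial.coeff_smul, smul_eq_mul]
      rw [Finset.sum_comm]
      refine Finset.sum_congr rfl fun l _ => ?_
      rw [Finset.Nat.sum_antidiagonal_eq_sum_range_succ_mk]

end Pool.Agent.SHGH54
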