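import Pool.Agent.Lib.MP_6e81d8_ag.H54.Sol

/-! Greedy labellings. -/

set_option autoImplicit false

namespace Pool.Agent.SHGH54

open Finset

/-- Triangular numbers. -/
def tri : ℕ → ℕ
  | 0 => 0
  | x + 1 => tri x + (x + 1)

theorem two_tri (x : ℕ) : 2 * tri x = x * (x + 1) := by
  induction x with
  | zero => rfl
  | succ x ih => rw [tri, mul_add, ih]; ring

theorem tri_mono {x y : ℕ} (h : x ≤ y) : tri x ≤ tri y := by
  induction h with
  | refl => exact le_rfl
  | step _ ih => rw [tri]; omega

theorem sum_Icc_tri (j : ℕ) : ∑ u ∈ Icc 1 j, u = tri j := by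
  induction j with
  | zero => rfl
  | succ j ih => rw [Finset.sum_Icc_succ_top (by omega), ih, tri]

theorem sum_sub_tri (n b : ℕ) : ∑ k ∈ range n, (if b ≤ k then n - k else 0) = tri (n - b) := by
  have : ∀ x, x ≤ n → ∑ k ∈ Ico (n - x) n, (n - k) = tri x := by
    intro x hx
    induction x with
    | zero => simp [tri]
    | succ x ih =>
      rw [Finset.sum_eq_sum_Ico_succ_bot (by omega), show n - (x + 1) + 1 = n - x by omega,
        ih (by omega), tri]
      omega
  rw [← this (n - b) (by omega), ← Finset.sum_filter]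
  apply Finset.sum_congr _ (fun _ _ => rfl)
  ext k
  simp only [mem_filter, mem_range, mem_Ico]
  omega

theorem area_le (n b : ℕ) (c : ℕ → ℕ) (h0 : ∀ k < b, c k = 0) (h1 : ∀ k, b ≤ k → c k ≤ n - k) :
    ∑ k ∈ range n, c k ≤ tri (n - b) := by
  rw [← sum_sub_tri]
  refine Finset.sum_le_sum fun k _ => ?_
  split_ifs with h
  · exact h1 k h
  · rw [h0 k (by omega)]

theorem area_ge (n b : ℕ) (c : ℕ → ℕ) (h1 : ∀ k, b ≤ k → n - k ≤ c k) :
    tri (n - b) ≤ ∑ k ∈ range n, c k := by
  rw [← sum_sub_tri]
  refine Finset.sum_le_sum fun k _ => ?_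
  split_ifs with h
  · exact h1 k h
  · omega

/-- The label chosen for a row of size `x` among the available labels `U`. -/
def pick (U : Finset ℕ) (x : ℕ) : ℕ :=
  if x = 0 then 0 else
    if h : (U.filter (x ≤ ·)).Nonempty then (U.filter (x ≤ ·)).min' h else U.sup id

/-- Labels still available at row `k`. -/
def avail (c : ℕ → ℕ) (j : ℕ) : ℕ → Finset ℕ
  | 0 => Icc 1 j
  | k + 1 => (avail c j k).erase (pick (avail c j k) (c k))

/-- The greedy labelling. -/
def lab (c : ℕ → ℕ) (j k : ℕ) : ℕ := pick (avail c j k) (c k)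

theorem pick_mem {U : Finset ℕ} {x : ℕ} (h : pick U x ≠ 0) : pick U x ∈ U := by
  unfold pick at h ⊢
  split_ifs at h ⊢ with h1 h2
  · exact absurd rfl h
  · exact (Finset.mem_filter.mp (Finset.min'_mem _ h2)).1
  · rcases U.eq_empty_or_nonempty with rfl | hU
    · simp at h
    · obtain ⟨u, hu, he⟩ := Finset.exists_mem_eq_sup U hU id
      rw [he]; exact hu

theorem pick_small {U : Finset ℕ} {x u : ℕ} (hx : x ≠ 0) (hu : u ∈ U) (hxu : x ≤ u) :
    x ≤ pick U x ∧ pick U x ≤ u := by
  have h2 : (U.filter (x ≤ ·)).Nonempty := ⟨u, Finset.mem_filter.mpr ⟨hu, hxu⟩⟩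
  unfold pick
  rw [if_neg hx, dif_pos h2]
  exact ⟨(Finset.mem_filter.mp (Finset.min'_mem _ h2)).2,
    Finset.min'_le _ _ (Finset.mem_filter.mpr ⟨hu, hxu⟩)⟩

theorem pick_cases {U : Finset ℕ} {x : ℕ} (hx : x ≠ 0) :
    x ≤ pick U x ∨ ∀ u ∈ U, u ≤ pick U x := by
  by_cases h2 : (U.filter (x ≤ ·)).Nonempty
  · obtain ⟨u, hu⟩ := h2
    rw [Finset.mem_filter] at hu
    exact Or.inl (pick_small hx hu.1 hu.2).1
  · right
    intro u hu
    unfold pick
    rw [if_neg hx, dif_neg h2]
    exact Finset.le_sup (f := id) hu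

theorem pick_big {U : Finset ℕ} {x : ℕ} (h0 : 0 ∉ U) (hb : ∀ u ∈ U, u ≤ x) :
    pick U x ≤ x ∧ ∀ u ∈ U, u ≤ pick U x := by
  by_cases hx : x = 0
  · subst hx
    refine ⟨by simp [pick], fun u hu => ?_⟩
    have := hb u hu
    omega
  · constructor
    · by_cases h : pick U x = 0
      · omega
      · exact hb _ (pick_mem h)
    · intro u hu
      rcases pick_cases (U := U) hx with h | h
      · exact (hb u hu).trans h
      · exact h u hu

theorem avail_anti (c : ℕ → ℕ) (j : ℕ) {k k' : ℕ} (h : k ≤ k') : avail c j k' ⊆ avail c j k := by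
  induction h with
  | refl => exact Finset.Subset.refl _
  | step _ ih => exact (Finset.erase_subset _ _).trans ih

theorem avail_Icc (c : ℕ → ℕ) (j k : ℕ) {u : ℕ} (h : u ∈ avail c j k) : 1 ≤ u ∧ u ≤ j :=
  Finset.mem_Icc.mp (avail_anti c j (Nat.zero_le k) h)

theorem lab_mem {c : ℕ → ℕ} {j k : ℕ} (h : lab c j k ≠ 0) : lab c j k ∈ avail c j k := pick_mem h

theorem lab_le (c : ℕ → ℕ) (j k : ℕ) : lab c j k ≤ j := by
  by_cases h : lab c j k = 0
  · omega
  · exact (avail_Icc c j k (lab_mem h)).2

theorem lab_notMem (c : ℕ → ℕ) (j : ℕ) {k k' : ℕ} (h : k < k') : lab c j k ∉ avail c j k' :=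
  fun hm => Finset.notMem_erase _ _ (avail_anti c j (show k + 1 ≤ k' from h) hm)

theorem lab_inj (c : ℕ → ℕ) (j k k' : ℕ) (h : lab c j k ≠ 0) (he : lab c j k = lab c j k') :
    k = k' := by
  rcases lt_trichotomy k k' with h1 | h1 | h1
  · exact absurd (he ▸ lab_mem (he ▸ h)) (lab_notMem c j h1)
  · exact h1
  · exact absurd (he ▸ lab_mem h) (lab_notMem c j h1)

theorem lab_ne_zero {c : ℕ → ℕ} {j k u : ℕ} (hc : c k ≠ 0) (hu : u ∈ avail c j k) :
    lab c j k ≠ 0 := by
  have := (avail_Icc c j k hu).1
  rcases pick_cases (U := avail c j k) hc with h | h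
  · unfold lab; omega
  · have := h u hu
    unfold lab; omega

theorem lab_valid (c : ℕ → ℕ) (j : ℕ) : Valid c j (lab c j) := by
  refine ⟨lab_inj c j, fun k hk => ?_⟩
  have h1 : ((range k).filter (fun t => c t ≠ 0 ∧
      ¬ (c t ≤ lab c j t ∧ lab c j t < lab c j k))).card ≤ (Ioc (lab c j k) j).card := by
    apply Finset.card_le_card_of_injOn (lab c j)
    · intro t ht
      obtain ⟨ht1, ht2, ht3⟩ := Finset.mem_filter.mp (Finset.mem_coe.mp ht)
      have htk := Finset.mem_range.mp ht1
      have hm : lab c j k ∈ avail c j t := avail_anti c j htk.le (lab_mem hk)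
      have hne : lab c j k ≠ lab c j t := fun h => by
        have := lab_inj c j k t hk h
        omega
      refine Finset.mem_coe.mpr (Finset.mem_Ioc.mpr ⟨?_, lab_le c j t⟩)
      rcases pick_cases (U := avail c j t) ht2 with h | h
      · have h' : c t ≤ lab c j t := h
        omega
      · have h' : lab c j k ≤ lab c j t := h _ hm
        omega
    · intro t ht t' _ he
      obtain ⟨ht1, ht2, -⟩ := Finset.mem_filter.mp (Finset.mem_coe.mp ht)
      have htk := Finset.mem_range.mp ht1
      exact lab_inj c j t t' (lab_ne_zero ht2 (avail_anti c j htk.le (lab_mem hk))) he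
  rw [Nat.card_Ioc] at h1
  have := lab_le c j k
  omega

theorem lab_sum (c : ℕ → ℕ) (j K : ℕ) :
    ∑ k ∈ range K, lab c j k + ∑ u ∈ avail c j K, u = tri j := by
  induction K with
  | zero => simp [avail, sum_Icc_tri]
  | succ K ih =>
    rw [Finset.sum_range_succ, ← ih, add_assoc]
    congr 1
    by_cases h : lab c j K = 0
    · have : avail c j (K + 1) = avail c j K := by
        show (avail c j K).erase (lab c j K) = _
        rw [h]
        exact Finset.erase_eq_of_notMem fun hm => by have := (avail_Icc c j K hm).1; omega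
      rw [this, h, zero_add]
    · exact Finset.add_sum_erase _ (fun u => u) (lab_mem h)

theorem avail_of_zero (c : ℕ → ℕ) (j b : ℕ) (hb : ∀ k < b, c k = 0) : avail c j b = Icc 1 j := by
  induction b with
  | zero => rfl
  | succ b ih =>
    rw [avail, ih (fun k hk => hb k (by omega)), hb b (by omega)]
    exact Finset.erase_eq_of_notMem (by simp [pick])

/-- Labels that are no longer available were used on the rows between `b` and `k`. -/
theorem mem_avail (c : ℕ → ℕ) (j b : ℕ) (hb : ∀ k < b, c k = 0) (k : ℕ) (hk : b ≤ k) (u : ℕ)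
    (hu1 : 1 ≤ u) (hu2 : u ≤ j) (h : ∀ t, b ≤ t → t < k → lab c j t ≠ u) : u ∈ avail c j k := by
  induction hk with
  | refl => rw [avail_of_zero c j b hb]; exact Finset.mem_Icc.mpr ⟨hu1, hu2⟩
  | @step k hk ih =>
    exact Finset.mem_erase.mpr ⟨(h k hk (by omega)).symm, ih fun t h1 h2 => h t h1 (by omega)⟩

theorem card_avail (c : ℕ → ℕ) (j b : ℕ) (hb : ∀ k < b, c k = 0) (t : ℕ)
    (h : ∀ k, b ≤ k → k < b + t → lab c j k ≠ 0) : (avail c j (b + t)).card + t = j := by
  induction t with
  | zero => simp [avail_of_zero c j b hb]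
  | succ t ih =>
    have h1 := ih fun k h1 h2 => h k h1 (by omega)
    have h2 : (avail c j (b + (t + 1))).card + 1 = (avail c j (b + t)).card :=
      Finset.card_erase_add_one (lab_mem (h (b + t) (by omega) (by omega)))
    omega

theorem greedy_spec (c : ℕ → ℕ) (j b n : ℕ) (hb : ∀ k < b, c k = 0) (hbn : b ≤ n)
    (hz : ∀ k, b ≤ k → k < n → c k ≠ 0) (hn : ∀ k, n ≤ k → c k = 0)
    (h1 : ∀ k, b ≤ k → c k ≤ c (k + 1) + 1) :
    ∃ (α : ℕ → ℕ) (q : ℕ), Valid c j α ∧ b ≤ q ∧ q ≤ b + j ∧ q ≤ n ∧ (∀ k, α k ≤ j) ∧
      (∀ k < b, α k = 0) ∧ (∀ k, b + j ≤ k → α k = 0) ∧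
      (∀ k, b ≤ k → k < q → c k ≤ α k ∧ α k ≤ c k + (k - b) ∧ c k < j ∧
        ((∀ t, b ≤ t → t < k → c t < c (t + 1)) → α k = c k)) ∧
      (q = n ∨ ((∀ k, q ≤ k → α k ≤ c k ∧ (α (k + 1) < α k ∨ (α k = 0 ∧ α (k + 1) = 0))) ∧
        ∑ k ∈ range n, α k = tri j)) := by
  classical
  have hex : ∃ k, b ≤ k ∧ ((∀ u ∈ avail c j k, u ≤ c k) ∨ k = n) := ⟨n, hbn, Or.inr rfl⟩
  set q := Nat.find hex with hq
  have hq1 := Nat.find_spec hex
  rw [← hq] at hq1
  have hqn : q ≤ n := Nat.find_min' hex ⟨hbn, Or.inr rfl⟩
  have hsm : ∀ k, b ≤ k → k < q → ∃ u ∈ avail c j k, c k < u := by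
    intro k hk hkq
    have := Nat.find_min hex hkq
    push Not at this
    exact (this hk).1
  have hne : ∀ k, b ≤ k → k < q → lab c j k ≠ 0 := by
    intro k hk hkq
    obtain ⟨u, hu, -⟩ := hsm k hk hkq
    exact lab_ne_zero (hz k hk (by omega)) hu
  have hempty : ∀ k, b + j ≤ k → lab c j k = 0 := by
    intro k hk
    by_contra h0
    have hkn : k < n := by
      by_contra hkn
      exact h0 (by simp [lab, pick, hn k (by omega)])
    have h2 := card_avail c j b hb j fun t h1 h2 =>
      lab_ne_zero (hz t h1 (by omega)) (avail_anti c j (by omega) (lab_mem h0))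
    have h3 : avail c j (b + j) = ∅ := Finset.card_eq_zero.mp (by omega)
    have := avail_anti c j hk (lab_mem h0)
    rw [h3] at this
    exact absurd this (Finset.notMem_empty _)
  refine ⟨lab c j, q, lab_valid c j, hq1.1, ?_, hqn, lab_le c j, ?_, hempty, ?_, ?_⟩
  · by_contra h
    exact hne (b + j) (by omega) (by omega) (hempty _ le_rfl)
  · intro k hk
    simp [lab, pick, hb k hk]
  · intro k hk hkq
    obtain ⟨u, hu, hcu⟩ := hsm k hk hkq
    have hck := hz k hk (by omega)
    have h2 := pick_small hck hu hcu.le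
    have huj := (avail_Icc c j k hu).2
    refine ⟨h2.1, ?_, by omega, ?_⟩
    · by_contra h3
      have h4 : (Icc (c k) (c k + (k - b))).card ≤ (Ico b k).card := by
        have hall : ∀ v ∈ Icc (c k) (c k + (k - b)), ∃ t ∈ Ico b k, lab c j t = v := by
          intro v hv
          rw [Finset.mem_Icc] at hv
          by_contra hno
          push Not at hno
          have hlj := lab_le c j k
          have hv' := mem_avail c j b hb k hk v (by omega) (by omega)
            fun t h1 h2 => hno t (Finset.mem_Ico.mpr ⟨h1, h2⟩)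
          have := (pick_small hck hv' hv.1).2
          have h5 : lab c j k ≤ v := this
          omega
        refine le_trans (Finset.card_le_card (t := (Ico b k).image (lab c j)) ?_)
          Finset.card_image_le
        intro v hv
        exact Finset.mem_image.mpr (hall v hv)
      rw [Nat.card_Icc, Nat.card_Ico] at h4
      omega
    · clear h2 huj hcu hu u hck
      induction k using Nat.strong_induction_on with
      | _ k ih =>
        intro hinc
        obtain ⟨u, hu, hcu⟩ := hsm k hk hkq
        have hck := hz k hk (by omega)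
        have huj := (avail_Icc c j k hu).2
        have hlt : ∀ t, b ≤ t → t < k → c t < c k := by
          intro t ht htk
          have : ∀ e, t + e + 1 ≤ k → c t < c (t + e + 1) := by
            intro e
            induction e with
            | zero => intro h; exact hinc t ht (by omega)
            | succ e ihe =>
              intro h
              have := ihe (by omega)
              have := hinc (t + e + 1) (by omega) (by omega)
              rw [show t + (e + 1) + 1 = t + e + 1 + 1 by omega]
              omega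
          have := this (k - t - 1) (by omega)
          rwa [show t + (k - t - 1) + 1 = k by omega] at this
        have hm := mem_avail c j b hb k hk (c k) (by omega) (by omega) fun t h1 h2 => by
          rw [ih t h2 h1 (by omega) fun t' h3 h4 => hinc t' h3 (by omega)]
          exact (hlt t h1 h2).ne
        have := pick_small hck hm le_rfl
        exact le_antisymm this.2 this.1
  · rcases hq1.2 with hbig | hqn'
    · right
      have hall : ∀ k, q ≤ k → ∀ u ∈ avail c j k, u ≤ c k := by
        intro k hk
        induction hk with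
        | refl => exact hbig
        | @step k hk ih =>
          intro u hu
          have h0 : 0 ∉ avail c j k := fun h => by have := (avail_Icc c j k h).1; omega
          have h2 := pick_big h0 ih
          obtain ⟨hu1, hu2⟩ := Finset.mem_erase.mp hu
          have h3 := h2.2 u hu2
          have h4 := h1 k (hq1.1.trans hk)
          have h5 := h2.1
          show u ≤ c (k + 1)
          omega
      constructor
      · intro k hk
        have h0 : 0 ∉ avail c j k := fun h => by have := (avail_Icc c j k h).1; omega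
        have h2 := pick_big h0 (hall k hk)
        refine ⟨h2.1, ?_⟩
        by_cases h3 : lab c j (k + 1) = 0
        · omega
        · left
          obtain ⟨hu1, hu2⟩ := Finset.mem_erase.mp (lab_mem h3)
          have := h2.2 _ hu2
          unfold lab at *
          omega
      · have h2 : avail c j n = ∅ := by
          rw [Finset.eq_empty_iff_forall_notMem]
          intro u hu
          have := hall n hqn u hu
          have := (avail_Icc c j n hu).1
          have := hn n le_rfl
          omega
        have := lab_sum c j n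
        rw [h2] at this
        simpa using this
    · exact Or.inl hqn'

end Pool.Agent.SHGH54
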