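import Pool.Agent.Lib.MP_6e81d8_ag.H54.Plane

/-! Maximal rank when all points outside a set `S` have small multiplicity. -/

set_option autoImplicit false

namespace Pool.Agent.SHGH54

theorem quadratic (r d m M : ℕ) (μ : Fin r → ℕ) (S : Finset (Fin r)) (hpos : ∀ i, 0 < μ i)
    (hS : ∑ i ∈ S, μ i ≤ d + 1) (hM : ∀ i ∈ S, μ i ≤ M) (hm : ∀ i, i ∉ S → μ i ≤ m)
    (h10 : 10 ≤ m) (hd : 8 * M + 15 * m ^ 2 + 40 * m ≤ 8 * d) :
    ∃ F : MvPolynomial (Fin r × Fin 2) ℂ, F ≠ 0 ∧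
      ∀ p : Fin r → Fin 2 → ℂ,
        MvPolynomial.eval (fun ij : Fin r × Fin 2 => p ij.1 ij.2) F ≠ 0 →
        ((Module.finrank ℂ (Sys d μ p) : ℤ) - 1)
          = max (-1) (((d * (d + 3) / 2 : ℕ) : ℤ)
              - ∑ i : Fin r, ((μ i * (μ i + 1) / 2 : ℕ) : ℤ)) := by
  apply expected_of_won
  obtain ⟨e, rfl⟩ : ∃ e, m = e + 3 := ⟨m - 3, by omega⟩
  have hsup : S.sup μ ≤ M := Finset.sup_le hM
  refine game (rules_won d μ) S (S.sup μ) e hpos hS (fun i hi => Finset.le_sup hi) ?_ hm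
    (by omega) (numeric e _ (by omega) (by omega)) _ (by omega)
  rcases S.eq_empty_or_nonempty with rfl | hne
  · left; rfl
  · obtain ⟨i, hi, h⟩ := Finset.exists_mem_eq_sup S hne μ
    exact Or.inr ⟨i, hi, h.symm⟩

end Pool.Agent.SHGH54
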