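import Pool.Agent.Lib.MP_6e81d8_ag.H54.Plain

/-! The middle game: moves create pending conditions, splits cash them. -/

set_option autoImplicit false
set_option linter.unusedSectionVars false

namespace Pool.Agent.SHGH54

open Finset

variable {ι : Type} [DecidableEq ι]

/-- Pending conditions of weight one and two. -/
def mkN (N1 N2 : ℕ → ℕ) : ℕ → ℕ → ℕ :=
  fun w k => if w = 1 then N1 k else if w = 2 then N2 k else 0

/-- Labels of a move with at most one small row. -/
def slab (b j l : ℕ) (k : ℕ) : ℕ :=
  if k < b then 0 else if k = b then l else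
    if l + (k - b) < j + 1 then j + 1 - (k - b) else j - (k - b)

theorem slab_valid (c : ℕ → ℕ) (b j : ℕ) (hb : ∀ k < b, c k = 0) (hc : c b ≠ 0) (hj : 1 ≤ j) :
    Valid c j (slab b j (min (c b) j)) := by
  constructor
  · intro k k'
    unfold slab
    split_ifs <;> omega
  · intro k hk
    have hkb : b ≤ k := by
      by_contra h
      exact hk (by simp [slab, show k < b by omega])
    by_cases h1 : k = b
    · subst h1
      have : (range k).filter (fun t => c t ≠ 0 ∧ ¬ (c t ≤ slab k j (min (c k) j) t ∧
          slab k j (min (c k) j) t < slab k j (min (c k) j) k)) = ∅ := by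
        rw [Finset.filter_eq_empty_iff]
        intro t ht h
        exact h.1 (hb t (Finset.mem_range.mp ht))
      rw [this]
      simp [slab]
    · by_cases h2 : min (c b) j + (k - b) < j + 1
      · have h3 : slab b j (min (c b) j) k = j + 1 - (k - b) := by
          simp [slab, show ¬ k < b by omega, h1, h2]
        have h4 : slab b j (min (c b) j) b = min (c b) j := by simp [slab]
        have : (range k).filter (fun t => c t ≠ 0 ∧ ¬ (c t ≤ slab b j (min (c b) j) t ∧
            slab b j (min (c b) j) t < slab b j (min (c b) j) k)) ⊆ Ico (b + 1) k := by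
          intro t ht
          obtain ⟨ht1, ht2, ht3⟩ := Finset.mem_filter.mp ht
          have := Finset.mem_range.mp ht1
          have h5 : b ≤ t := by
            by_contra h
            exact ht2 (hb t (by omega))
          refine Finset.mem_Ico.mpr ⟨?_, this⟩
          by_contra h
          have h6 : t = b := by omega
          subst h6
          rw [h3, h4] at ht3
          omega
        have := Finset.card_le_card this
        rw [Nat.card_Ico] at this
        omega
      · have h3 : slab b j (min (c b) j) k = j - (k - b) := by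
          simp [slab, show ¬ k < b by omega, h1, h2]
        have : (range k).filter (fun t => c t ≠ 0 ∧ ¬ (c t ≤ slab b j (min (c b) j) t ∧
            slab b j (min (c b) j) t < slab b j (min (c b) j) k)) ⊆ Ico b k := by
          intro t ht
          obtain ⟨ht1, ht2, -⟩ := Finset.mem_filter.mp ht
          have := Finset.mem_range.mp ht1
          refine Finset.mem_Ico.mpr ⟨?_, this⟩
          by_contra h
          exact ht2 (hb t (by omega))
        have := Finset.card_le_card this
        rw [Nat.card_Ico] at this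
        omega

theorem slab_sum (n b j l : ℕ) (hl1 : 1 ≤ l) (hl : l ≤ j) (hn : b + j ≤ n) :
    ∑ k ∈ range n, slab b j l k = tri j := by
  rw [← sum_Icc_tri]
  have h1 : ∑ k ∈ range n, slab b j l k = ∑ k ∈ Ico b (b + j), slab b j l k := by
    symm
    apply Finset.sum_subset
    · intro k hk
      rw [Finset.mem_Ico] at hk
      exact Finset.mem_range.mpr (by omega)
    · intro k _ hk
      rw [Finset.mem_Ico] at hk
      unfold slab
      split_ifs <;> omega
  rw [h1]
  refine Finset.sum_nbij' (slab b j l)
    (fun u => if u = l then b else if l < u then b + (j + 1 - u) else b + (j - u)) ?_ ?_ ?_ ?_ ?_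
  · intro k hk
    rw [Finset.mem_Ico] at hk
    rw [Finset.mem_Icc]
    unfold slab
    split_ifs <;> omega
  · intro u hu
    rw [Finset.mem_Icc] at hu
    rw [Finset.mem_Ico]
    split_ifs <;> omega
  · intro k hk
    rw [Finset.mem_Ico] at hk
    unfold slab
    split_ifs <;> omega
  · intro u hu
    rw [Finset.mem_Icc] at hu
    unfold slab
    split_ifs <;> omega
  · intro _ _; rfl

/-- Invariant of the middle game, for `m = e + 3`. -/
structure InvB (n e b : ℕ) (c N1 N2 : ℕ → ℕ) : Prop where
  low : ∀ k < b, c k = 0 ∧ N1 k = 0 ∧ N2 k = 0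
  hb : b < n
  hg : ∀ k, b ≤ k → c k + N1 k + 2 * N2 k ≤ n - k
  hz : ∀ k, b ≤ k → k < n → c k ≠ 0
  hK : ∀ k, b ≤ k → n - k + e * (N1 (k + 1) + N2 (k + 1)) + (e + 3) * (c k + N1 k + 2 * N2 k) ≤
    (e + 3) * (c (k + 1) + 1) + (c k + N1 k + 2 * N2 k)
  hL : e * (N1 b + N2 b) ≤ (e + 3) * c b
  hp : ∀ k, N1 k + N2 k ≠ 0 → (e + 3) * (e + 3) + 2 ≤ n - k

theorem InvB.step {n e b : ℕ} {c N1 N2 : ℕ → ℕ} (h : InvB n e b c N1 N2) (k : ℕ) (hk : b ≤ k) :
    c k + N1 k + 2 * N2 k ≤ c (k + 1) + 1 := by
  have h1 := h.hK k hk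
  have h2 := h.hg k hk
  have : (e + 3) * (c k + N1 k + 2 * N2 k) ≤ (e + 3) * (c (k + 1) + 1) := by omega
  exact Nat.le_of_mul_le_mul_left this (by omega)

theorem InvB.big {n e b : ℕ} {c N1 N2 : ℕ → ℕ} (h : InvB n e b c N1 N2) (k : ℕ) (hk : b ≤ k)
    (t : ℕ) : c k ≤ c (k + t) + t := by
  induction t with
  | zero => simp
  | succ t ih =>
    have := h.step (k + t) (by omega)
    show c k ≤ c (k + t + 1) + (t + 1)
    omega

/-- Branch one of a split. -/
theorem InvB.unpend {n e b : ℕ} {c N1 N2 : ℕ → ℕ} (h : InvB n e b c N1 N2) (w a1 a2 : ℕ)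
    (h1 : a1 ≤ N1 b) (h2 : a2 ≤ N2 b) (hw : w = a1 + 2 * a2) :
    InvB n e b (Function.update c b (c b + w)) (Function.update N1 b (N1 b - a1))
      (Function.update N2 b (N2 b - a2)) := by
  have key : ∀ k, Function.update c b (c b + w) k + Function.update N1 b (N1 b - a1) k +
      2 * Function.update N2 b (N2 b - a2) k = c k + N1 k + 2 * N2 k := by
    intro k
    by_cases hk : k = b
    · subst hk; simp only [Function.update_self]; omega
    · simp only [Function.update_of_ne hk]
  refine ⟨fun k hk => ?_, h.hb, fun k hk => ?_, fun k hk hkn => ?_, fun k hk => ?_, ?_,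
    fun k hk => ?_⟩
  · simp only [Function.update_of_ne (show k ≠ b by omega)]
    exact h.low k hk
  · rw [key]; exact h.hg k hk
  · by_cases hk' : k = b
    · subst hk'
      have := h.hz k hk hkn
      simp only [Function.update_self]; omega
    · simp only [Function.update_of_ne hk']
      exact h.hz k hk hkn
  · rw [key]
    simp only [Function.update_of_ne (show k + 1 ≠ b by omega)]
    exact h.hK k hk
  · simp only [Function.update_self]
    have h3 := h.hL
    have h4 : e * (N1 b - a1 + (N2 b - a2)) ≤ e * (N1 b + N2 b) := Nat.mul_le_mul_left _ (by omega)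
    have h5 : (e + 3) * c b ≤ (e + 3) * (c b + w) := Nat.mul_le_mul_left _ (by omega)
    omega
  · apply h.hp k
    by_cases hk' : k = b
    · subst hk'
      simp only [Function.update_self] at hk
      omega
    · simpa only [Function.update_of_ne hk'] using hk

/-- Branch two of a split. -/
theorem InvB.kill {n e b : ℕ} {c N1 N2 : ℕ → ℕ} (h : InvB n e b c N1 N2)
    (hG : (e + 3) * (e + 3) + 2 ≤ n - b) :
    InvB n e (b + 1) (Function.update c b 0) (Function.update N1 b 0) (Function.update N2 b 0) := by
  have hsq : 9 ≤ (e + 3) * (e + 3) := by nlinarith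
  refine ⟨fun k hk => ?_, by omega, fun k hk => ?_, fun k hk hkn => ?_, fun k hk => ?_, ?_,
    fun k hk => ?_⟩
  · by_cases hk' : k = b
    · subst hk'; simp
    · simp only [Function.update_of_ne hk']
      exact h.low k (by omega)
  · simp only [Function.update_of_ne (show k ≠ b by omega)]
    exact h.hg k (by omega)
  · simp only [Function.update_of_ne (show k ≠ b by omega)]
    exact h.hz k (by omega) hkn
  · simp only [Function.update_of_ne (show k ≠ b by omega),
      Function.update_of_ne (show k + 1 ≠ b by omega)]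
    exact h.hK k (by omega)
  · simp only [Function.update_of_ne (show b + 1 ≠ b by omega)]
    have h1 := h.hK b le_rfl
    nlinarith
  · apply h.hp k
    by_cases hk' : k = b
    · subst hk'
      simp at hk
    · simpa only [Function.update_of_ne hk'] using hk

theorem arithK (e g n1 c c' α α' P a : ℕ) (hα : α ≤ c) (hα' : α' ≤ c')
    (h : g + e * n1 + (e + 3) * (c + P) ≤ (e + 3) * (c' + 1) + (c + P))
    (hm : α ≤ e + 3) (hd : α' < α ∨ (α = 0 ∧ α' = 0)) (ha : a = 0 ∨ (a = 1 ∧ α ≤ 3 ∧ α' < α)) :
    g + e * (n1 + a) + (e + 3) * (c - α + P) ≤ (e + 3) * (c' - α' + 1) + (c - α + P) := by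
  obtain ⟨u, rfl⟩ := Nat.exists_eq_add_of_le hα
  obtain ⟨v, rfl⟩ := Nat.exists_eq_add_of_le hα'
  rw [Nat.add_sub_cancel_left, Nat.add_sub_cancel_left]
  rcases hd with hd | ⟨rfl, rfl⟩
  · have h8 : (e + 3) * (α' + 1) ≤ (e + 3) * α := Nat.mul_le_mul_left _ hd
    rcases ha with rfl | ⟨rfl, h1, -⟩
    · nlinarith
    · nlinarith
  · rcases ha with rfl | ⟨-, -, h1⟩
    · simpa using h
    · omega

/-- A move in the middle game; `a1`, `a2` say which pending condition is created on top. -/
theorem InvB.move {n e b : ℕ} {c N1 N2 : ℕ → ℕ} (h : InvB n e b c N1 N2)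
    (hG : (e + 3) * (e + 3) + 2 ≤ n - b) (hN : N1 b + N2 b = 0) (j : ℕ) (hj2 : 2 ≤ j)
    (hj : j ≤ e + 3) (a1 a2 : ℕ)
    (ha : (a1 = 0 ∧ a2 = 0) ∨ ((e + 3) * (e + 3) + 2 ≤ n - (b + j - 1) ∧ a1 + a2 = 1 ∧
      a1 + 2 * a2 = slab b j (min (c b) j) (b + j - 1))) :
    (∀ k, slab b j (min (c b) j) k ≤ c k) ∧
    ∃ b', b ≤ b' ∧ InvB n e b' (fun k => c k - slab b j (min (c b) j) k)
      (Function.update N1 (b + j - 1) (N1 (b + j - 1) + a1))
      (Function.update N2 (b + j - 1) (N2 (b + j - 1) + a2)) := by
  have hsq : 9 ≤ (e + 3) * (e + 3) := by nlinarith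
  have hcb := h.hz b le_rfl h.hb
  have hKb := h.hK b le_rfl
  have hN1 : N1 b = 0 := by omega
  have hN2 : N2 b = 0 := by omega
  rw [hN1, hN2] at hKb
  set l := min (c b) j with hl
  set α := slab b j l with hα
  have hαb : α b = l := by simp [hα, slab]
  have hα1 : α (b + 1) ≤ j ∧ (j ≤ c b → α (b + 1) + 1 = j) := by
    simp only [hα, slab]
    split_ifs <;> omega
  have hnext : c b ≤ j → α (b + 1) < c (b + 1) ∧
      e * (N1 (b + 1) + N2 (b + 1)) + (if j = 2 then e else 0) ≤
        (e + 3) * (c (b + 1) - α (b + 1)) := by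
    intro hcj
    have h1 : (e + 3) * j ≤ (e + 3) * (e + 3) := Nat.mul_le_mul_left _ hj
    have h2 : (e + 3) * α (b + 1) ≤ (e + 3) * j := Nat.mul_le_mul_left _ hα1.1
    have h3 : (e + 2) * 1 ≤ (e + 2) * c b := Nat.mul_le_mul_left _ (by omega)
    have h4 : (e + 3) * α (b + 1) < (e + 3) * c (b + 1) := by nlinarith
    have h5 : α (b + 1) < c (b + 1) := lt_of_mul_lt_mul_left h4 (by omega)
    refine ⟨h5, ?_⟩
    obtain ⟨v, hv⟩ := Nat.exists_eq_add_of_le h5.le
    rw [hv, Nat.add_sub_cancel_left]
    rw [hv] at hKb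
    split_ifs with h6
    · subst h6
      nlinarith
    · nlinarith
  have hle : ∀ k, α k ≤ c k := by
    intro k
    rcases lt_trichotomy k b with hk | hk | hk
    · simp [hα, slab, hk]
    · rw [hk, hαb]; omega
    · have h1 := h.big (b + 1) (by omega) (k - (b + 1))
      rw [show b + 1 + (k - (b + 1)) = k by omega] at h1
      have h2 := h.big b le_rfl (k - b)
      rw [show b + (k - b) = k by omega] at h2
      rcases le_or_gt (c b) j with h3 | h3
      · have h4 := (hnext h3).1
        simp only [hα, slab] at h4 ⊢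
        split_ifs at h4 ⊢ <;> omega
      · simp only [hα, slab]
        split_ifs <;> omega
  refine ⟨hle, ?_⟩
  have hdec : ∀ k, b + 1 ≤ k → α (k + 1) < α k ∨ (α k = 0 ∧ α (k + 1) = 0) := by
    intro k hk
    simp only [hα, slab]
    split_ifs <;> omega
  have hαm : ∀ k, α k ≤ e + 3 := by
    intro k
    simp only [hα, slab]
    split_ifs <;> omega
  have hP : ∀ k, c k - α k + Function.update N1 (b + j - 1) (N1 (b + j - 1) + a1) k +
      2 * Function.update N2 (b + j - 1) (N2 (b + j - 1) + a2) k ≤ c k + N1 k + 2 * N2 k := by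
    intro k
    have := hle k
    by_cases hk : k = b + j - 1
    · subst hk; simp only [Function.update_self]; omega
    · simp only [Function.update_of_ne hk]; omega
  have hKnew : ∀ k, b ≤ k → (α (k + 1) < α k ∨ (α k = 0 ∧ α (k + 1) = 0)) →
      n - k + e * (Function.update N1 (b + j - 1) (N1 (b + j - 1) + a1) (k + 1) +
        Function.update N2 (b + j - 1) (N2 (b + j - 1) + a2) (k + 1)) +
      (e + 3) * (c k - α k + Function.update N1 (b + j - 1) (N1 (b + j - 1) + a1) k +
        2 * Function.update N2 (b + j - 1) (N2 (b + j - 1) + a2) k) ≤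
      (e + 3) * (c (k + 1) - α (k + 1) + 1) +
        (c k - α k + Function.update N1 (b + j - 1) (N1 (b + j - 1) + a1) k +
        2 * Function.update N2 (b + j - 1) (N2 (b + j - 1) + a2) k) := by
    intro k hk hd
    have hKk := h.hK k hk
    rw [add_assoc (c k)] at hKk
    by_cases hk1 : k = b + j - 1
    · have e0 : α (k + 1) = 0 := by
        simp only [hα, slab]
        split_ifs <;> omega
      rw [Function.update_of_ne (show k + 1 ≠ b + j - 1 by omega),
        Function.update_of_ne (show k + 1 ≠ b + j - 1 by omega), ← hk1, Function.update_self,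
        Function.update_self]
      rcases ha with ⟨rfl, rfl⟩ | ⟨-, -, ha⟩
      · have := arithK e (n - k) _ _ _ (α k) (α (k + 1)) _ 0 (hle k) (hle (k + 1)) hKk (hαm k) hd
          (Or.inl rfl)
        simpa only [add_zero, add_assoc] using this
      · rw [← hk1] at ha
        have e1 : c k - α k + (N1 k + a1) + 2 * (N2 k + a2) = c k + (N1 k + 2 * N2 k) := by
          have := hle k
          omega
        rw [e1, e0]
        exact hKk
    · rw [Function.update_of_ne hk1, Function.update_of_ne hk1]
      by_cases hk2 : k + 1 = b + j - 1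
      · rw [← hk2, Function.update_self, Function.update_self]
        have := arithK e (n - k) _ _ _ (α k) (α (k + 1)) _ (a1 + a2) (hle k) (hle (k + 1)) hKk
          (hαm k) hd (by
            rcases ha with ⟨rfl, rfl⟩ | ⟨-, ha, -⟩
            · exact Or.inl rfl
            · right
              refine ⟨ha, ?_, ?_⟩
              · simp only [hα, slab]
                split_ifs <;> omega
              · have : α (k + 1) ≠ 0 := by
                  simp only [hα, slab]
                  split_ifs <;> omega
                omega)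
        rw [show N1 (k + 1) + a1 + (N2 (k + 1) + a2) = N1 (k + 1) + N2 (k + 1) + (a1 + a2) by omega,
          add_assoc (c k - α k)]
        exact this
      · rw [Function.update_of_ne hk2, Function.update_of_ne hk2]
        have := arithK e (n - k) _ _ _ (α k) (α (k + 1)) _ 0 (hle k) (hle (k + 1)) hKk (hαm k) hd
          (Or.inl rfl)
        simpa only [add_zero, add_assoc] using this
  have hpnew : ∀ k, Function.update N1 (b + j - 1) (N1 (b + j - 1) + a1) k +
      Function.update N2 (b + j - 1) (N2 (b + j - 1) + a2) k ≠ 0 →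
      (e + 3) * (e + 3) + 2 ≤ n - k := by
    intro k hk
    by_cases hk1 : k = b + j - 1
    · subst hk1
      simp only [Function.update_self] at hk
      rcases ha with ⟨rfl, rfl⟩ | ⟨ha, -⟩
      · exact h.hp _ (by simpa using hk)
      · exact ha
    · simp only [Function.update_of_ne hk1] at hk
      exact h.hp _ hk
  have hznew : ∀ b', b ≤ b' → c b' - α b' ≠ 0 →
      (∀ k, b' ≤ k → α (k + 1) < α k ∨ (α k = 0 ∧ α (k + 1) = 0)) →
      ∀ k, b' ≤ k → k < n → c k - α k ≠ 0 := by
    intro b' hb' h0 hd k hk hkn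
    induction hk with
    | refl => exact h0
    | @step k hk ih =>
      have hk' : b' ≤ k := hk
      have h2 := ih (by omega)
      have h3 := hd k hk'
      have h5 := h.step k (by omega)
      have h6 := h.hz (k + 1) (by omega) hkn
      have h7 := hle k
      show c (k + 1) - α (k + 1) ≠ 0
      omega
  rcases le_or_gt (c b) j with hcj | hcj
  · obtain ⟨hn1, hn2⟩ := hnext hcj
    refine ⟨b + 1, by omega, fun k hk => ?_, by omega,
      fun k hk => (hP k).trans (h.hg k (by omega)),
      hznew (b + 1) (by omega) (by omega) hdec, fun k hk => hKnew k (by omega) (hdec k hk), ?_,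
      hpnew⟩
    · simp only [Function.update_of_ne (show k ≠ b + j - 1 by omega)]
      by_cases hk' : k = b
      · subst hk'
        rw [hαb]
        omega
      · have := h.low k (by omega)
        omega
    · by_cases hj' : j = 2
      · subst hj'
        simp only [show b + 2 - 1 = b + 1 by omega, Function.update_self, if_true] at hn2 ha ⊢
        have : e * (N1 (b + 1) + a1 + (N2 (b + 1) + a2)) ≤ e * (N1 (b + 1) + N2 (b + 1) + 1) :=
          Nat.mul_le_mul_left _ (by omega)
        rw [mul_add e _ 1] at this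
        omega
      · simp only [Function.update_of_ne (show b + 1 ≠ b + j - 1 by omega)]
        omega
  · have hdec' : ∀ k, b ≤ k → α (k + 1) < α k ∨ (α k = 0 ∧ α (k + 1) = 0) := by
      intro k hk
      by_cases hk' : k = b
      · subst hk'
        have := hα1.2 hcj.le
        omega
      · exact hdec k (by omega)
    refine ⟨b, le_rfl, fun k hk => ?_, h.hb, fun k hk => (hP k).trans (h.hg k hk),
      hznew b le_rfl (by omega) hdec', fun k hk => hKnew k hk (hdec' k hk), ?_, hpnew⟩
    · simp only [Function.update_of_ne (show k ≠ b + j - 1 by omega)]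
      have := h.low k hk
      omega
    · simp only [Function.update_of_ne (show b ≠ b + j - 1 by omega), hN1, hN2]
      simp

theorem sum_update_add (n b : ℕ) (hb : b < n) (f : ℕ → ℕ) (v : ℕ) :
    ∑ k ∈ range n, Function.update f b v k + f b = ∑ k ∈ range n, f k + v := by
  have hm : b ∈ range n := Finset.mem_range.mpr hb
  rw [← Finset.add_sum_erase _ _ hm, ← Finset.add_sum_erase _ f hm, Function.update_self]
  have : ∑ k ∈ (range n).erase b, Function.update f b v k = ∑ k ∈ (range n).erase b, f k :=
    Finset.sum_congr rfl fun k hk => Function.update_of_ne (Finset.mem_erase.mp hk).1 _ _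
  rw [this]
  omega

theorem pot_kill (t e W y B S N x x' cb : ℕ)
    (hΦ : W ≤ (t * (e + 3) + e) * (y + B) + t * e * (S + N) + e * x)
    (h1 : e * N ≤ (e + 3) * cb) (h3 : x ≤ x' + cb) :
    W ≤ (t * (e + 3) + e) * (y + (B + cb)) + t * e * S + e * x' := by
  have h2 : t * (e * N) ≤ t * ((e + 3) * cb) := Nat.mul_le_mul_left _ h1
  have h4 : e * x ≤ e * (x' + cb) := Nat.mul_le_mul_left _ h3
  nlinarith

theorem pot_unpend (t e W y B S x x' w : ℕ)
    (hΦ : W ≤ (t * (e + 3) + e) * (y + B) + t * e * (S + 1) + e * x)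
    (h1 : 1 ≤ w) (h3 : x ≤ x') :
    W ≤ (t * (e + 3) + e) * (y + w + B) + t * e * S + e * x' := by
  have h2 : (t * (e + 3) + e) * 1 ≤ (t * (e + 3) + e) * w := Nat.mul_le_mul_left _ h1
  have h4 : e * x ≤ e * x' := Nat.mul_le_mul_left _ h3
  nlinarith

theorem pot_move (t e W Z S x x' : ℕ) (hΦ : W ≤ Z + t * e * S + e * x) (h3 : x ≤ x' + t) :
    W ≤ Z + t * e * (S + 1) + e * x' := by
  have h4 : e * x ≤ e * (x' + t) := Nat.mul_le_mul_left _ h3
  nlinarith

variable {n : ℕ} {μ : ι → ℕ} {W : (ℕ → ℕ) → (ℕ → ℕ → ℕ) → Finset ι → ℕ → Prop}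

set_option maxHeartbeats 2000000 in
theorem phaseB (R : Rules n μ W) (M e : ℕ) : ∀ (T : ℕ) (Fr : Finset ι),
    (∀ i ∈ Fr, 1 ≤ μ i ∧ μ i ≤ e + 3) → ∀ (b : ℕ) (c N1 N2 : ℕ → ℕ) (y B : ℕ), M ≤ b →
    InvB n e b c N1 N2 → ∑ k ∈ range n, c k + B = y + len μ Fr →
    (tri (e + 3) * (e + 3) + e) * (tri (e + 3) + tri (2 * (e + 3) - 2)) ≤
      (tri (e + 3) * (e + 3) + e) * (y + B) +
        tri (e + 3) * e * (∑ k ∈ range n, N1 k + ∑ k ∈ range n, N2 k) +
        e * (∑ k ∈ range n, c k - tri ((e + 3) * (e + 3) + (e + 3))) →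
    2 * Fr.card + (∑ k ∈ range n, N1 k + ∑ k ∈ range n, N2 k) < T → W c (mkN N1 N2) Fr y := by
  intro T
  induction T with
  | zero => intro Fr _ b c N1 N2 y B _ _ _ _ h; omega
  | succ T ih =>
  intro Fr hμ b c N1 N2 y B hMb hI hB hΦ hT
  set a := ∑ k ∈ range n, c k with ha
  set S1 := ∑ k ∈ range n, N1 k with hS1
  set S2 := ∑ k ∈ range n, N2 k with hS2
  set t := tri (e + 3) with ht
  set t1 := tri ((e + 3) * (e + 3) + (e + 3)) with ht1
  set W3 := t + tri (2 * (e + 3) - 2) with hW3
  have hsq : 9 ≤ (e + 3) * (e + 3) := by nlinarith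
  have hsq' : e + 3 ≤ (e + 3) * (e + 3) := by nlinarith
  by_cases hy : a ≤ y
  · exact R.zero _ _ _ _ hy
  by_cases hNb : N1 b + N2 b = 0
  swap
  · have hG := hI.hp b hNb
    have hkill : W (Function.update c b 0) (mkN N1 N2) Fr y := by
      have e1 := sum_update_add n b hI.hb c 0
      have e2 := sum_update_add n b hI.hb N1 0
      have e3 := sum_update_add n b hI.hb N2 0
      rw [← ha] at e1
      rw [← hS1] at e2
      rw [← hS2] at e3
      refine R.mono (ih Fr hμ (b + 1) _ _ _ y (B + c b) (by omega) (hI.kill hG) (by omega) ?_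
        (by omega)) (fun _ _ => le_rfl) ?_ le_rfl
      · have h4 : S1 + S2 = (∑ k ∈ range n, Function.update N1 b 0 k +
          ∑ k ∈ range n, Function.update N2 b 0 k) + (N1 b + N2 b) := by omega
        rw [h4] at hΦ
        exact pot_kill _ _ _ _ _ _ _ _ _ _ hΦ hI.hL (by omega)
      · intro w k _
        unfold mkN
        by_cases hk : k = b
        · subst hk; simp
        · simp only [Function.update_of_ne hk]; exact le_rfl
    have hun : ∀ w a1 a2, a1 ≤ N1 b → a2 ≤ N2 b → w = a1 + 2 * a2 → a1 + a2 = 1 →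
        W (Function.update c b (c b + w)) (mkN (Function.update N1 b (N1 b - a1))
          (Function.update N2 b (N2 b - a2))) Fr (y + w) := by
      intro w a1 a2 h1 h2 hw h3
      have e1 := sum_update_add n b hI.hb c (c b + w)
      have e2 := sum_update_add n b hI.hb N1 (N1 b - a1)
      have e3 := sum_update_add n b hI.hb N2 (N2 b - a2)
      rw [← ha] at e1
      rw [← hS1] at e2
      rw [← hS2] at e3
      refine ih Fr hμ b _ _ _ (y + w) B hMb (hI.unpend w a1 a2 h1 h2 hw) (by omega) ?_ (by omega)
      have h4 : S1 + S2 = (∑ k ∈ range n, Function.update N1 b (N1 b - a1) k +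
        ∑ k ∈ range n, Function.update N2 b (N2 b - a2) k) + 1 := by omega
      rw [h4] at hΦ
      exact pot_unpend _ _ _ _ _ _ _ _ _ hΦ (by omega) (by omega)
    have hmono : ∀ a1 a2 w' k, mkN (Function.update N1 b (N1 b - a1))
        (Function.update N2 b (N2 b - a2)) w' k ≤ mkN N1 N2 w' k := by
      intro a1 a2 w' k
      unfold mkN
      by_cases hk : k = b
      · subst hk
        simp only [Function.update_self]
        split_ifs <;> omega
      · simp only [Function.update_of_ne hk]; exact le_rfl
    by_cases h1 : N1 b = 0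
    · refine R.split c _ Fr y b 2 hI.hb (by omega) (by simp [mkN]; omega)
        (fun k hk => (hI.low k hk).1) _ (fun w' k _ => hmono 0 1 w' k) (by simp [mkN]; omega)
        (hun 2 0 1 (by omega) (by omega) rfl rfl) hkill
    · refine R.split c _ Fr y b 1 hI.hb (by omega) (by simp [mkN]; omega)
        (fun k hk => (hI.low k hk).1) _ (fun w' k _ => hmono 1 0 w' k) (by simp [mkN]; omega)
        (hun 1 1 0 (by omega) (by omega) rfl rfl) hkill
  have harea : a ≤ tri (n - b) :=
    area_le n b c (fun k hk => (hI.low k hk).1) fun k hk => by have := hI.hg k hk; omega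
  by_cases hC : S1 + S2 = 0 ∧ n - b ≤ (e + 3) * (e + 3) + (e + 3)
  · have hz1 : ∀ k, N1 k = 0 ∧ N2 k = 0 := by
      intro k
      by_contra h0
      have h1 := hI.hp k (by omega)
      have h2 : N1 k ≤ S1 := Finset.single_le_sum (f := N1) (fun _ _ => Nat.zero_le _)
        (Finset.mem_range.mpr (by omega))
      have h3 : N2 k ≤ S2 := Finset.single_le_sum (f := N2) (fun _ _ => Nat.zero_le _)
        (Finset.mem_range.mpr (by omega))
      omega
    have hP : InvP n M (e + 3) b c := by
      refine ⟨fun k hk => (hI.low k hk).1, hI.hb, fun k => ?_, hI.hz, fun k hk => Or.inr ?_⟩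
      · rcases lt_or_ge k b with h | h
        · rw [(hI.low k h).1]; omega
        · have := hI.hg k h
          omega
      · have := hI.hK k hk
        rw [(hz1 k).1, (hz1 k).2, (hz1 (k + 1)).1, (hz1 (k + 1)).2] at this
        rw [show min (n - M) (n - k) = n - k by omega]
        simpa using this
    have h1 : a - t1 = 0 := by
      have := tri_mono hC.2
      omega
    rw [hC.1, h1] at hΦ
    have h2 : W3 ≤ y + B := by
      have h3 : 0 < t * (e + 3) + e := by
        have : tri 1 ≤ t := tri_mono (by omega)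
        have : 1 ≤ t := this
        positivity
      exact Nat.le_of_mul_le_mul_left (by simpa using hΦ) h3
    refine R.mono (phaseC R M (e + 3) (by omega) Fr (fun i hi => (hμ i hi).2) b c y B hMb hP hB ?_)
      (fun _ _ => le_rfl) (fun _ _ _ => Nat.zero_le _) le_rfl
    have : tri (min (n - b) (2 * (e + 3) - 2)) ≤ tri (2 * (e + 3) - 2) := tri_mono (by omega)
    omega
  have hG : (e + 3) * (e + 3) + 2 ≤ n - b := by
    by_cases h0 : S1 + S2 = 0
    · omega
    · have : ∃ k, N1 k + N2 k ≠ 0 := by
        by_contra h1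
        push Not at h1
        apply h0
        rw [hS1, hS2, ← Finset.sum_add_distrib]
        exact Finset.sum_eq_zero fun k _ => h1 k
      obtain ⟨k, hk⟩ := this
      have h1 := hI.hp k hk
      have h2 : b ≤ k := by
        by_contra h3
        have := hI.low k (by omega)
        omega
      omega
  obtain ⟨i, hi⟩ : Fr.Nonempty := by
    rw [Finset.nonempty_iff_ne_empty]
    rintro rfl
    simp only [len, Finset.sum_empty] at hB
    omega
  have hlen := len_erase μ hi
  have hcard := Finset.card_erase_add_one hi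
  have hμ' : ∀ i' ∈ Fr.erase i, 1 ≤ μ i' ∧ μ i' ≤ e + 3 :=
    fun i' hi' => hμ i' (Finset.mem_of_mem_erase hi')
  obtain ⟨hj1, hj⟩ := hμ i hi
  by_cases h1 : μ i = 1
  · refine R.simple c _ Fr y i hi h1 ?_
    rw [h1] at hlen
    have : tri 1 = 1 := rfl
    refine ih _ hμ' b c N1 N2 (y + 1) B hMb hI (by omega) ?_ (by omega)
    have h6 : (t * (e + 3) + e) * (y + B) ≤ (t * (e + 3) + e) * (y + 1 + B) :=
      Nat.mul_le_mul_left _ (by omega)
    exact hΦ.trans (Nat.add_le_add_right (Nat.add_le_add_right h6 _) _)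
  have hj2 : 2 ≤ μ i := by omega
  have hcb := hI.hz b le_rfl hI.hb
  have hsum := slab_sum n b (μ i) (min (c b) (μ i)) (by omega) (by omega) (by omega)
  have htj : tri (μ i) ≤ t := tri_mono hj
  have htop : slab b (μ i) (min (c b) (μ i)) (b + μ i - 1) = 1 ∨
      slab b (μ i) (min (c b) (μ i)) (b + μ i - 1) = 2 := by
    unfold slab
    split_ifs <;> omega
  have habove : ∀ k', b + μ i - 1 < k' → slab b (μ i) (min (c b) (μ i)) k' = 0 := by
    intro k' hk'
    unfold slab
    split_ifs <;> omega
  have main : ∀ a1 a2, ((a1 = 0 ∧ a2 = 0 ∧ n - b ≤ (e + 3) * (e + 3) + (e + 3)) ∨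
      ((e + 3) * (e + 3) + 2 ≤ n - (b + μ i - 1) ∧ a1 + a2 = 1 ∧
      a1 + 2 * a2 = slab b (μ i) (min (c b) (μ i)) (b + μ i - 1))) → W c (mkN N1 N2) Fr y := by
    intro a1 a2 ha'
    obtain ⟨hle, b', hb', hI'⟩ := hI.move hG hNb (μ i) hj2 hj a1 a2 (by omega)
    refine R.move c _ Fr y i hi _ (slab_valid c b (μ i) (fun k hk => (hI.low k hk).1) hcb hj1)
      (mkN (Function.update N1 (b + μ i - 1) (N1 (b + μ i - 1) + a1))
        (Function.update N2 (b + μ i - 1) (N2 (b + μ i - 1) + a2))) ?_ ?_
    · intro w k hw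
      unfold mkN
      by_cases hk : k = b + μ i - 1
      · subst hk
        simp only [Function.update_self]
        split_ifs with h2 h3
        · by_cases h4 : a1 = 0
          · left; omega
          · right; exact ⟨by omega, by omega, habove⟩
        · by_cases h4 : a2 = 0
          · left; omega
          · right; exact ⟨by omega, by omega, habove⟩
        · left; omega
      · simp only [Function.update_of_ne hk]
        left; exact le_rfl
    · have hA := area_move n c (slab b (μ i) (min (c b) (μ i)))
      rw [hsum, Finset.sum_eq_zero (s := range n)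
        (f := fun k => slab b (μ i) (min (c b) (μ i)) k - c k)
        (fun k _ => by have := hle k; omega), ← ha] at hA
      have e2 := sum_update_add n (b + μ i - 1) (by omega) N1 (N1 (b + μ i - 1) + a1)
      have e3 := sum_update_add n (b + μ i - 1) (by omega) N2 (N2 (b + μ i - 1) + a2)
      rw [← hS1] at e2
      rw [← hS2] at e3
      refine ih _ hμ' b' _ _ _ y B (by omega) hI' (by omega) ?_ (by omega)
      have h4 : ∑ k ∈ range n, Function.update N1 (b + μ i - 1) (N1 (b + μ i - 1) + a1) k +
          ∑ k ∈ range n, Function.update N2 (b + μ i - 1) (N2 (b + μ i - 1) + a2) k =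
          S1 + S2 + (a1 + a2) := by omega
      rw [h4]
      rcases ha' with ⟨rfl, rfl, h5⟩ | ⟨-, h5, -⟩
      · have h6 : a - t1 = 0 := by
          have := tri_mono h5
          omega
        rw [h6] at hΦ
        simp only [add_zero] at hΦ ⊢
        omega
      · rw [h5]
        exact pot_move _ _ _ _ _ _ _ hΦ (by omega)
  rcases le_or_gt (n - b) ((e + 3) * (e + 3) + (e + 3)) with h2 | h2
  · exact main 0 0 (Or.inl ⟨rfl, rfl, h2⟩)
  · rcases htop with h3 | h3
    · exact main 1 0 (Or.inr ⟨by omega, rfl, by omega⟩)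
    · exact main 0 1 (Or.inr ⟨by omega, rfl, by omega⟩)

end Pool.Agent.SHGH54
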