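import Pool.Agent.Lib.MP_6e81d8_ag.H54.Sol

/-! The abstract row game: states `(c, N, Fr, y)` and the rules that prove them. -/

set_option autoImplicit false
set_option linter.unusedSectionVars false

namespace Pool.Agent.SHGH54

open Polynomial Module Finset

variable {V : Type} [AddCommGroup V] [Module ℂ V] [FiniteDimensional ℂ V]
variable (row : ℕ → V →ₗ[ℂ] ℂ[X]) (n : ℕ)
variable {ι : Type} [Fintype ι] [DecidableEq ι] (μ : ι → ℕ)

/-- The labelling `l` has its top label `w` on row `k`. -/
def IsTop (l : ℕ → ℕ) (w k : ℕ) : Prop := l k = w ∧ ∀ k', k < k' → l k' = 0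

open Classical in
/-- An explicit state is described by an abstract state. -/
def Compat (F : ℕ → ℕ) (Fr : Finset ι) (lam : ι → ℕ → ℕ) (c : ℕ → ℕ) (N : ℕ → ℕ → ℕ) : Prop :=
  (∀ k < n, F k ≤ c k + ∑ i ∈ Frᶜ, lam i k) ∧
  ∀ w k, w ≠ 0 → N w k ≤ (Frᶜ.filter (fun i => IsTop (lam i) w k)).card

/-- The abstract state is won. -/
def Won (c : ℕ → ℕ) (N : ℕ → ℕ → ℕ) (Fr : Finset ι) (y : ℕ) : Prop :=
  ∀ F lam, Compat n F Fr lam c N → Q row n μ F Fr lam y

theorem Won.mono {c c' : ℕ → ℕ} {N N' : ℕ → ℕ → ℕ} {Fr : Finset ι} {y y' : ℕ}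
    (h : Won row n μ c' N' Fr y') (hc : ∀ k < n, c k ≤ c' k) (hN : ∀ w k, w ≠ 0 → N' w k ≤ N w k)
    (hy : y' ≤ y) : Won row n μ c N Fr y := by
  intro F lam hC
  refine (h F lam ⟨fun k hk => ?_, fun w k hw => (hN w k hw).trans (hC.2 w k hw)⟩).mono
    fun x hx => hx.trans hy
  have := hC.1 k hk
  have := hc k hk
  omega

theorem generic_inj : Generic (fun x : ι × Fin 2 → ℂ => Function.Injective (fun i => x (i, 0))) :=
  generic_injective (fun i : ι => (i, (0 : Fin 2))) (fun _ _ h => (Prod.mk.inj h).1)

omit [FiniteDimensional ℂ V] in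
/-- A row with room `c` is killed by `c` further zeros at a new point. -/
theorem kill_row (F : ℕ → ℕ) (Fr : Finset ι) (lam : ι → ℕ → ℕ) (x : ι × Fin 2 → ℂ)
    (hx : Function.Injective (fun i => x (i, 0))) (T : Finset ι) (hT : ∀ i ∈ T, i ∉ Fr)
    (s : ℂ) (hs : ∀ i ∈ T, x (i, 0) ≠ s) (k : ℕ) (hk : k < n) (c : ℕ)
    (hc : F k ≤ c + ∑ i ∈ T, lam i k) (f : V) (hf : f ∈ Sol row n μ F Fr lam x)
    (hv : ∀ a < c, tay s a (row k f) = 0) : row k f = 0 := by
  classical
  rw [mem_Sol] at hf
  refine kill (insertNone T) (fun o => o.elim s (fun i => x (i, 0))) ?_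
    (fun o => o.elim c (fun i => lam i k)) (F k) _ (hf.1 k hk) ?_ ?_
  · rintro (_ | i) hi (_ | j) hj hij
    · rfl
    · exact absurd hij.symm (hs j (by simpa using hj))
    · exact absurd hij (hs i (by simpa using hi))
    · exact congrArg some (hx hij)
  · rintro (_ | i) hi a ha
    · exact hv a ha
    · exact hf.2.2 i (hT i (by simpa using hi)) k hk a ha
  · rw [Finset.sum_insertNone]
    exact hc

variable (hinj : ∀ f : V, (∀ k < n, row k f = 0) → f = 0)
include hinj

omit [FiniteDimensional ℂ V] in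
theorem won_zero (c : ℕ → ℕ) (N : ℕ → ℕ → ℕ) (Fr : Finset ι) (y : ℕ)
    (h : ∑ k ∈ range n, c k ≤ y) : Won row n μ c N Fr y := by
  classical
  intro F lam hC
  refine generic_inj.mono fun x hx => ?_
  obtain ⟨s, hs⟩ := Infinite.exists_notMem_finset (Finset.univ.image fun i => x (i, 0))
  let ψ : Sol row n μ F Fr lam x →ₗ[ℂ] ((Σ k : Fin n, Fin (c k)) → ℂ) :=
    LinearMap.pi fun ka => tay s (ka.2 : ℕ) ∘ₗ row ka.1 ∘ₗ Submodule.subtype _
  have hψ : Function.Injective ψ := by
    rw [injective_iff_map_eq_zero]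
    intro f hf
    apply Subtype.ext
    apply hinj
    intro k hk
    refine kill_row row n μ F Fr lam x hx Frᶜ (fun i hi => Finset.mem_compl.mp hi) s
      (fun i _ h => hs (Finset.mem_image.mpr ⟨i, Finset.mem_univ _, h⟩)) k hk (c k) (hC.1 k hk)
      _ f.2 fun a ha => ?_
    exact congrFun hf ⟨⟨k, hk⟩, ⟨a, ha⟩⟩
  have := LinearMap.finrank_le_finrank_of_injective hψ
  rw [Module.finrank_fintype_fun_eq_card, Fintype.card_sigma] at this
  simp only [Fintype.card_fin] at this
  rw [Fin.sum_univ_eq_sum_range c n] at this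
  omega

omit hinj in
theorem compat_move {F : ℕ → ℕ} {Fr : Finset ι} {lam : ι → ℕ → ℕ} {c : ℕ → ℕ} {N : ℕ → ℕ → ℕ}
    (hC : Compat n F Fr lam c N) (i0 : ι) (hi0 : i0 ∈ Fr) (α : ℕ → ℕ) (N' : ℕ → ℕ → ℕ)
    (hN : ∀ w k, w ≠ 0 → N' w k ≤ N w k ∨ (N' w k ≤ N w k + 1 ∧ IsTop α w k)) :
    Compat n F (Fr.erase i0) (Function.update lam i0 α) (fun k => c k - α k) N' := by
  classical
  have hc : (Fr.erase i0)ᶜ = insert i0 Frᶜ := by
    ext i; simp only [mem_compl, mem_erase, mem_insert]; tauto
  have hn : i0 ∉ Frᶜ := by simpa using hi0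
  have hupd : ∀ i ∈ Frᶜ, Function.update lam i0 α i = lam i := fun i hi =>
    Function.update_of_ne (fun h : i = i0 => hn (h ▸ hi)) _ _
  constructor
  · intro k hk
    rw [hc, Finset.sum_insert hn, Function.update_self,
      Finset.sum_congr rfl fun i hi => by rw [hupd i hi]]
    have := hC.1 k hk
    show F k ≤ c k - α k + _
    omega
  · intro w k hw
    have h1 := hC.2 w k hw
    have h2 : Frᶜ.filter (fun i => IsTop (Function.update lam i0 α i) w k) =
        Frᶜ.filter (fun i => IsTop (lam i) w k) :=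
      Finset.filter_congr fun i hi => by rw [hupd i hi]
    rw [hc, Finset.filter_insert, h2, Function.update_self]
    have h3 : i0 ∉ Frᶜ.filter (fun i => IsTop (lam i) w k) := fun h =>
      hn (Finset.mem_filter.mp h).1
    rcases hN w k hw with h | ⟨h, ht⟩
    · split_ifs
      · rw [Finset.card_insert_of_notMem h3]; omega
      · omega
    · rw [if_pos ht, Finset.card_insert_of_notMem h3]; omega

omit hinj in
theorem won_move (c : ℕ → ℕ) (N : ℕ → ℕ → ℕ) (Fr : Finset ι) (y : ℕ) (i0 : ι) (hi0 : i0 ∈ Fr)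
    (α : ℕ → ℕ) (hv : Valid c (μ i0) α) (N' : ℕ → ℕ → ℕ)
    (hN : ∀ w k, w ≠ 0 → N' w k ≤ N w k ∨ (N' w k ≤ N w k + 1 ∧ IsTop α w k))
    (h : Won row n μ (fun k => c k - α k) N' (Fr.erase i0) y) : Won row n μ c N Fr y := by
  classical
  intro F lam hC
  obtain ⟨x, hx, hxi⟩ := ((h F _ (compat_move n hC i0 hi0 α N' hN)).and generic_inj).exists
  obtain ⟨ψ, hψ⟩ := (finrank_le_iff_cut _ _).mp hx
  have hn : i0 ∉ Frᶜ := by simpa using hi0
  obtain ⟨t, ht⟩ := horace row n
    (Sol row n μ F (Fr.erase i0) (Function.update lam i0 0) x ⊓ LinearMap.ker ψ) c (μ i0) α hv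
    (x (i0, 0)) (by
      intro f hf u hu ha
      refine kill_row row n μ F _ _ x hxi Frᶜ (fun i hi h => ?_) (x (i0, 0)) (fun i hi h => ?_)
        u hu (c u) ?_ f hf.1 ha
      · exact (Finset.mem_compl.mp hi) (Finset.mem_of_mem_erase h)
      · exact hn ((hxi h : i = i0) ▸ hi)
      · have : ∑ i ∈ Frᶜ, Function.update lam i0 0 i u = ∑ i ∈ Frᶜ, lam i u :=
          Finset.sum_congr rfl fun i hi => by
            rw [Function.update_of_ne (fun h : i = i0 => hn (h ▸ hi))]
        rw [this]
        exact hC.1 u hu) (by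
      intro f hf ha
      refine hψ f ?_ hf.2
      have h1 := (mem_Sol row n μ _ _ _ _ _).mp hf.1
      refine (mem_Sol row n μ _ _ _ _ _).mpr ⟨h1.1, h1.2.1, fun i hi k hk a hak => ?_⟩
      by_cases hii : i = i0
      · subst hii
        rw [Function.update_self] at hak
        exact ha k hk a hak
      · rw [Function.update_of_ne hii] at hak
        exact h1.2.2 i hi k hk a (by rwa [Function.update_of_ne hii]))
  refine Q_of_exists row n μ F Fr lam y (Function.update x (i0, 1) t) ?_
  refine (finrank_le_iff_cut _ _).mpr ⟨ψ, fun f hf h0 => ht f ⟨?_, h0⟩ ?_⟩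
  · have h1 := (mem_Sol row n μ _ _ _ _ _).mp hf
    refine (mem_Sol row n μ _ _ _ _ _).mpr ⟨h1.1, fun i hi a b hab => ?_, fun i hi k hk a hak => ?_⟩
    · have hii : i ≠ i0 := (Finset.mem_erase.mp hi).1
      have := h1.2.1 i (Finset.mem_of_mem_erase hi) a b hab
      rwa [Function.update_of_ne (by simp), Function.update_of_ne (by simp [hii])] at this
    · by_cases hii : i = i0
      · subst hii
        simp at hak
      · rw [Function.update_of_ne hii] at hak
        have := h1.2.2 i (fun h => hi (Finset.mem_erase.mpr ⟨hii, h⟩)) k hk a hak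
        rwa [Function.update_of_ne (by simp)] at this
  · intro a b hab
    have := ((mem_Sol row n μ _ _ _ _ _).mp hf).2.1 i0 hi0 a b hab
    rwa [Function.update_of_ne (by simp), Function.update_self] at this

omit [FiniteDimensional ℂ V] [Fintype ι] in
theorem exists_jet_ne (f : V) (hf : f ≠ 0) : ∃ s t : ℂ, jet row n s t 0 0 f ≠ 0 := by
  have : ∃ k < n, row k f ≠ 0 := by
    by_contra h
    push Not at h
    exact hf (hinj f h)
  obtain ⟨k, hk, hne⟩ := this
  obtain ⟨s, -, hs⟩ := exists_good _ hne ∅
  have hp : (∑ u ∈ range n, monomial u ((row u f).eval s) : ℂ[X]) ≠ 0 := by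
    intro h
    have := congrArg (fun p => Polynomial.coeff p k) h
    simp only [finsetSum_coeff, coeff_monomial, Finset.sum_ite_eq', Finset.mem_range, hk,
      if_true, coeff_zero] at this
    exact hs this
  obtain ⟨t, -, ht⟩ := exists_good _ hp ∅
  refine ⟨s, t, fun h => ht ?_⟩
  rw [jet_apply] at h
  rw [eval_finsetSum, ← h]
  refine Finset.sum_congr rfl fun u _ => ?_
  simp [tay_apply, mul_comm]

theorem won_simple (c : ℕ → ℕ) (N : ℕ → ℕ → ℕ) (Fr : Finset ι) (y : ℕ) (i0 : ι) (hi0 : i0 ∈ Fr)
    (h1 : μ i0 = 1) (h : Won row n μ c N (Fr.erase i0) (y + 1)) : Won row n μ c N Fr y := by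
  classical
  intro F lam hC
  have hC' := compat_move n hC i0 hi0 0 N (fun w k _ => Or.inl le_rfl)
  obtain ⟨x, hx⟩ := (h F _ (by simpa using hC')).exists
  have key : ∀ s t : ℂ, ∀ f ∈ Sol row n μ F Fr lam
      (Function.update (Function.update x (i0, 0) s) (i0, 1) t),
      f ∈ Sol row n μ F (Fr.erase i0) (Function.update lam i0 0) x ∧ jet row n s t 0 0 f = 0 := by
    intro s t f hf
    have h2 := (mem_Sol row n μ _ _ _ _ _).mp hf
    refine ⟨(mem_Sol row n μ _ _ _ _ _).mpr
      ⟨h2.1, fun i hi a b hab => ?_, fun i hi k hk a hak => ?_⟩, ?_⟩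
    · have hii : i ≠ i0 := (Finset.mem_erase.mp hi).1
      have := h2.2.1 i (Finset.mem_of_mem_erase hi) a b hab
      rwa [Function.update_of_ne (by simp), Function.update_of_ne (by simp [hii]),
        Function.update_of_ne (by simp [hii]), Function.update_of_ne (by simp [hii])] at this
    · by_cases hii : i = i0
      · subst hii
        simp at hak
      · rw [Function.update_of_ne hii] at hak
        have := h2.2.2 i (fun h => hi (Finset.mem_erase.mpr ⟨hii, h⟩)) k hk a hak
        rwa [Function.update_of_ne (by simp), Function.update_of_ne (by simp [hii])] at this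
    · have := h2.2.1 i0 hi0 0 0 (by omega)
      rwa [Function.update_of_ne (by simp), Function.update_self, Function.update_self] at this
  by_cases hb : Sol row n μ F (Fr.erase i0) (Function.update lam i0 0) x = ⊥
  · refine Q_of_exists row n μ F Fr lam y
      (Function.update (Function.update x (i0, 0) 0) (i0, 1) 0) ?_
    have : Sol row n μ F Fr lam (Function.update (Function.update x (i0, 0) 0) (i0, 1) 0) = ⊥ := by
      rw [eq_bot_iff, ← hb]
      exact fun f hf => (key 0 0 f hf).1
    rw [this]; simp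
  · obtain ⟨f, hf, hf0⟩ := Submodule.exists_mem_ne_zero_of_ne_bot hb
    obtain ⟨s, t, hst⟩ := exists_jet_ne row n hinj f hf0
    refine Q_of_exists row n μ F Fr lam y
      (Function.update (Function.update x (i0, 0) s) (i0, 1) t) ?_
    have hlt : Sol row n μ F Fr lam (Function.update (Function.update x (i0, 0) s) (i0, 1) t) <
        Sol row n μ F (Fr.erase i0) (Function.update lam i0 0) x := by
      refine lt_of_le_of_ne (fun g hg => (key s t g hg).1) fun he => hst ?_
      exact (key s t f (he ▸ hf)).2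
    have := Submodule.finrank_lt_finrank_of_lt hlt
    omega

omit hinj in
theorem finrank_split (Z : Submodule ℂ V) (φ : V →ₗ[ℂ] ℂ[X]) :
    finrank ℂ Z = finrank ℂ ↥(Z ⊓ LinearMap.ker φ) + finrank ℂ (Z.map φ) := by
  have h1 := LinearMap.finrank_range_add_finrank_ker (φ.domRestrict Z)
  rw [LinearMap.range_domRestrict, LinearMap.ker_domRestrict] at h1
  have h2 : finrank ℂ ↥(Submodule.comap Z.subtype (LinearMap.ker φ)) =
      finrank ℂ ↥(Z ⊓ LinearMap.ker φ) := by
    rw [← Submodule.finrank_map_subtype_eq, Submodule.map_comap_subtype]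
  omega

omit hinj in
theorem won_split (c : ℕ → ℕ) (N : ℕ → ℕ → ℕ) (Fr : Finset ι) (y : ℕ) (b w : ℕ) (hb : b < n)
    (hw : w ≠ 0) (hN : N w b ≠ 0) (hc : ∀ k < b, c k = 0) (N' : ℕ → ℕ → ℕ)
    (hN' : ∀ w' k, w' ≠ 0 → N' w' k ≤ N w' k) (hN'' : N' w b + 1 ≤ N w b)
    (h1 : Won row n μ (Function.update c b (c b + w)) N' Fr (y + w))
    (h2 : Won row n μ (Function.update c b 0) N Fr y) : Won row n μ c N Fr y := by
  classical
  intro F lam hC
  have hpos := hC.2 w b hw
  obtain ⟨i0, hi0⟩ := Finset.card_pos.mp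
    (show 0 < (Frᶜ.filter (fun i => IsTop (lam i) w b)).card by omega)
  obtain ⟨hi0F, htop⟩ := Finset.mem_filter.mp hi0
  have hi0F' : i0 ∉ Fr := Finset.mem_compl.mp hi0F
  set lam1 := Function.update lam i0 (Function.update (lam i0) b 0) with hlam1
  have hC1 : Compat n F Fr lam1 (Function.update c b (c b + w)) N' := by
    constructor
    · intro k hk
      have h3 := hC.1 k hk
      rw [← Finset.add_sum_erase _ _ hi0F] at h3 ⊢
      have h4 : ∑ i ∈ Frᶜ.erase i0, lam1 i k = ∑ i ∈ Frᶜ.erase i0, lam i k :=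
        Finset.sum_congr rfl fun i hi => by
          rw [hlam1, Function.update_of_ne (Finset.mem_erase.mp hi).1]
      rw [h4, hlam1, Function.update_self]
      by_cases hkb : k = b
      · subst hkb
        rw [Function.update_self, Function.update_self]
        have := htop.1
        omega
      · rw [Function.update_of_ne hkb, Function.update_of_ne hkb]
        exact h3
    · intro w' k hw'
      have hsub : (Frᶜ.filter (fun i => IsTop (lam i) w' k)).erase i0 ⊆
          Frᶜ.filter (fun i => IsTop (lam1 i) w' k) := by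
        intro i hi
        obtain ⟨hii, hi⟩ := Finset.mem_erase.mp hi
        rw [Finset.mem_filter] at hi ⊢
        rw [hlam1, Function.update_of_ne hii]
        exact hi
      have h3 := Finset.card_le_card hsub
      have h4 := hC.2 w' k hw'
      by_cases hm : i0 ∈ Frᶜ.filter (fun i => IsTop (lam i) w' k)
      · have ht := (Finset.mem_filter.mp hm).2
        have hkb : k = b := by
          rcases lt_trichotomy k b with h | h | h
          · exact absurd (htop.1.symm.trans (ht.2 b h)) hw
          · exact h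
          · exact absurd (ht.1.symm.trans (htop.2 k h)) hw'
        subst hkb
        have hww : w' = w := ht.1.symm.trans htop.1
        subst hww
        rw [Finset.card_erase_of_mem hm] at h3
        omega
      · rw [Finset.erase_eq_of_notMem hm] at h3
        have := hN' w' k hw'
        omega
  have hC2 : Compat n (Function.update F b 0) Fr lam (Function.update c b 0) N := by
    refine ⟨fun k hk => ?_, hC.2⟩
    by_cases hkb : k = b
    · subst hkb; simp
    · rw [Function.update_of_ne hkb, Function.update_of_ne hkb]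
      exact hC.1 k hk
  obtain ⟨x, ⟨hx1, hx2⟩, hxi⟩ := (((h1 F _ hC1).and (h2 _ _ hC2)).and generic_inj).exists
  set V0 := Sol row n μ (fun k => if k < b then 0 else F k) Fr (Function.update lam i0 0) x
    with hV0
  have hlow : ∀ f ∈ V0, ∀ k < b, row k f = 0 := by
    intro f hf k hk
    have := ((mem_Sol row n μ _ _ _ _ _).mp hf).1 k (by omega)
    rw [if_pos hk, mem_degreeLT, degree_lt_iff_coeff_zero] at this
    ext e
    simpa using this e (Nat.zero_le e)
  have hle1 : V0 ≤ Sol row n μ F Fr lam1 x := by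
    intro f hf
    have h3 := (mem_Sol row n μ _ _ _ _ _).mp hf
    refine (mem_Sol row n μ _ _ _ _ _).mpr ⟨fun k hk => ?_, h3.2.1, fun i hi k hk a ha => ?_⟩
    · by_cases hkb : k < b
      · rw [hlow f hf k hkb]; exact zero_mem _
      · simpa [hkb] using h3.1 k hk
    · by_cases hkb : k < b
      · rw [hlow f hf k hkb, map_zero]
      · by_cases hii : i = i0
        · subst hii
          rw [hlam1, Function.update_self] at ha
          by_cases hk2 : k = b
          · subst hk2; simp at ha
          · rw [Function.update_of_ne hk2, htop.2 k (by omega)] at ha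
            omega
        · rw [hlam1, Function.update_of_ne hii] at ha
          exact h3.2.2 i hi k hk a (by rwa [Function.update_of_ne hii])
  have hle2 : V0 ⊓ LinearMap.ker (row b) ≤ Sol row n μ (Function.update F b 0) Fr lam x := by
    rintro f ⟨hf, hfb⟩
    have hfb' : row b f = 0 := hfb
    have h3 := (mem_Sol row n μ _ _ _ _ _).mp hf
    refine (mem_Sol row n μ _ _ _ _ _).mpr ⟨fun k hk => ?_, h3.2.1, fun i hi k hk a ha => ?_⟩
    · by_cases hkb : k < b
      · rw [hlow f hf k hkb]; exact zero_mem _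
      · by_cases hk2 : k = b
        · subst hk2; rw [hfb']; exact zero_mem _
        · rw [Function.update_of_ne hk2]
          simpa [hkb] using h3.1 k hk
    · by_cases hkb : k < b
      · rw [hlow f hf k hkb, map_zero]
      · by_cases hk2 : k = b
        · subst hk2; rw [hfb', map_zero]
        · by_cases hii : i = i0
          · subst hii
            rw [htop.2 k (by omega)] at ha
            omega
          · exact h3.2.2 i hi k hk a (by rwa [Function.update_of_ne hii])
  obtain ⟨s, hs, hsW⟩ := wronsk (V0.map (row b)) w (Finset.univ.image fun i => x (i, 0))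
  have hs' : ∀ i, x (i, 0) ≠ s := fun i h => hs (Finset.mem_image.mpr ⟨i, Finset.mem_univ _, h⟩)
  refine Q_of_exists row n μ F Fr lam y (Function.update x (i0, 0) s) ?_
  set Z := Sol row n μ F Fr lam (Function.update x (i0, 0) s) with hZ
  have hx' : ∀ i, i ≠ i0 → Function.update x (i0, 0) s (i, 0) = x (i, 0) := fun i hi =>
    Function.update_of_ne (by simp [hi]) _ _
  have hxi' : Function.Injective (fun i => Function.update x (i0, 0) s (i, 0)) := by
    intro i j hij
    by_cases hi : i = i0 <;> by_cases hj : j = i0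
    · rw [hi, hj]
    · simp only [hi, Function.update_self, hx' j hj] at hij
      exact absurd hij.symm (hs' j)
    · simp only [hj, Function.update_self, hx' i hi] at hij
      exact absurd hij (hs' i)
    · simp only [hx' i hi, hx' j hj] at hij
      exact hxi hij
  have hZ0 : Z ≤ V0 := by
    intro f hf
    have h3 := (mem_Sol row n μ _ _ _ _ _).mp hf
    refine (mem_Sol row n μ _ _ _ _ _).mpr
      ⟨fun k hk => ?_, fun i hi a b' hab => ?_, fun i hi k hk a ha => ?_⟩
    · by_cases hkb : k < b
      · obtain ⟨s', hs2⟩ := Infinite.exists_notMem_finset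
          (Finset.univ.image fun i => Function.update x (i0, 0) s (i, 0))
        rw [kill_row row n μ F Fr lam _ hxi' Frᶜ (fun i hi => Finset.mem_compl.mp hi) s'
          (fun i _ h => hs2 (Finset.mem_image.mpr ⟨i, Finset.mem_univ _, h⟩)) k hk 0
          (by have := hC.1 k hk; rwa [hc k hkb] at this) f hf (fun a ha => by omega)]
        exact zero_mem _
      · simpa [hkb] using h3.1 k hk
    · have hii : i ≠ i0 := fun h => hi0F' (h ▸ hi)
      have := h3.2.1 i hi a b' hab
      rwa [hx' i hii, Function.update_of_ne (by simp)] at this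
    · by_cases hii : i = i0
      · subst hii; simp at ha
      · rw [Function.update_of_ne hii] at ha
        have := h3.2.2 i hi k hk a ha
        rwa [hx' i hii] at this
  have hZm : Z.map (row b) ≤ V0.map (row b) ⊓ Van s w := by
    rintro _ ⟨f, hf, rfl⟩
    refine ⟨⟨f, hZ0 hf, rfl⟩, (mem_Van _ _ _).mpr fun a ha => ?_⟩
    have := ((mem_Sol row n μ _ _ _ _ _).mp hf).2.2 i0 hi0F' b hb a (by rw [htop.1]; exact ha)
    rwa [Function.update_self] at this
  have e1 := finrank_split Z (row b)
  have e2 := finrank_split V0 (row b)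
  have e3 : finrank ℂ ↥(Z ⊓ LinearMap.ker (row b)) ≤ finrank ℂ ↥(V0 ⊓ LinearMap.ker (row b)) :=
    Submodule.finrank_mono (inf_le_inf_right _ hZ0)
  have : FiniteDimensional ℂ ↥(V0.map (row b) ⊓ Van s w) :=
    Submodule.finiteDimensional_of_le inf_le_left
  have e4 := Submodule.finrank_mono hZm
  have e5 := Submodule.finrank_mono hle1
  have e6 := Submodule.finrank_mono hle2
  omega

end Pool.Agent.SHGH54
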