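import Pool.Agent.Lib.MP_6e81d8_ag.H54.Greedy
import Pool.Agent.Lib.MP_6e81d8_ag.H54.Rules

/-! The rule system, and the phases of the game without pending conditions. -/

set_option autoImplicit false
set_option linter.unusedSectionVars false

namespace Pool.Agent.SHGH54

open Finset

variable {ι : Type} [DecidableEq ι]

/-- The rules satisfied by the predicate `Won`. -/
structure Rules (n : ℕ) (μ : ι → ℕ)
    (W : (ℕ → ℕ) → (ℕ → ℕ → ℕ) → Finset ι → ℕ → Prop) : Prop where
  mono : ∀ {c c' : ℕ → ℕ} {N N' : ℕ → ℕ → ℕ} {Fr : Finset ι} {y y' : ℕ},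
    W c' N' Fr y' → (∀ k < n, c k ≤ c' k) → (∀ w k, w ≠ 0 → N' w k ≤ N w k) → y' ≤ y → W c N Fr y
  zero : ∀ (c : ℕ → ℕ) (N : ℕ → ℕ → ℕ) (Fr : Finset ι) (y : ℕ),
    ∑ k ∈ range n, c k ≤ y → W c N Fr y
  move : ∀ (c : ℕ → ℕ) (N : ℕ → ℕ → ℕ) (Fr : Finset ι) (y : ℕ) (i0 : ι), i0 ∈ Fr →
    ∀ (α : ℕ → ℕ), Valid c (μ i0) α → ∀ (N' : ℕ → ℕ → ℕ),
    (∀ w k, w ≠ 0 → N' w k ≤ N w k ∨ (N' w k ≤ N w k + 1 ∧ IsTop α w k)) →
    W (fun k => c k - α k) N' (Fr.erase i0) y → W c N Fr y
  simple : ∀ (c : ℕ → ℕ) (N : ℕ → ℕ → ℕ) (Fr : Finset ι) (y : ℕ) (i0 : ι), i0 ∈ Fr →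
    μ i0 = 1 → W c N (Fr.erase i0) (y + 1) → W c N Fr y
  split : ∀ (c : ℕ → ℕ) (N : ℕ → ℕ → ℕ) (Fr : Finset ι) (y : ℕ) (b w : ℕ), b < n →
    w ≠ 0 → N w b ≠ 0 → (∀ k < b, c k = 0) → ∀ (N' : ℕ → ℕ → ℕ),
    (∀ w' k, w' ≠ 0 → N' w' k ≤ N w' k) → N' w b + 1 ≤ N w b →
    W (Function.update c b (c b + w)) N' Fr (y + w) →
    W (Function.update c b 0) N Fr y → W c N Fr y

/-- Total number of conditions of the free points. -/
def len (μ : ι → ℕ) (Fr : Finset ι) : ℕ := ∑ i ∈ Fr, tri (μ i)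

theorem len_erase (μ : ι → ℕ) {Fr : Finset ι} {i : ι} (hi : i ∈ Fr) :
    len μ (Fr.erase i) + tri (μ i) = len μ Fr :=
  Finset.sum_erase_add _ _ hi

/-- Invariant of the phases without pending conditions; `n` rows, `M` the largest big
multiplicity, profile `min (n - M) (n - k)`. -/
structure InvP (n M m b : ℕ) (c : ℕ → ℕ) : Prop where
  low : ∀ k < b, c k = 0
  hb : b < n
  hg : ∀ k, c k ≤ min (n - M) (n - k)
  hz : ∀ k, b ≤ k → k < n → c k ≠ 0
  hK : ∀ k, b ≤ k → (k < M ∧ c k + 1 ≤ c (k + 1)) ∨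
    min (n - M) (n - k) + m * c k ≤ m * (c (k + 1) + 1) + c k

theorem InvP.step {n M m b : ℕ} {c : ℕ → ℕ} (h : InvP n M m b c) (hm : 1 ≤ m) (k : ℕ)
    (hk : b ≤ k) : c k ≤ c (k + 1) + 1 := by
  rcases h.hK k hk with h1 | h1
  · omega
  · have h2 := h.hg k
    have : m * c k ≤ m * (c (k + 1) + 1) := by omega
    exact Nat.le_of_mul_le_mul_left this hm

theorem InvP.inc {n M m b : ℕ} {c : ℕ → ℕ} (h : InvP n M m b c) (k : ℕ) (hk : b ≤ k)
    (hc : c k < m) (hg : 2 * m ≤ min (n - M) (n - k)) : c k < c (k + 1) := by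
  rcases h.hK k hk with h1 | h1
  · omega
  · by_contra h2
    have h3 : m * (c (k + 1) + 1) ≤ m * (c k + 1) := Nat.mul_le_mul_left _ (by omega)
    rw [mul_add m (c k)] at h3
    omega

theorem InvP.move {n M m b : ℕ} {c : ℕ → ℕ} (h : InvP n M m b c) (hm : 1 ≤ m) (α : ℕ → ℕ)
    (q : ℕ) (hbq : b ≤ q) (hα : ∀ k, α k ≤ m) (hsm : ∀ k, b ≤ k → k < q → c k ≤ α k)
    (hbig : ∀ k, q ≤ k → α k ≤ c k ∧ (α (k + 1) < α k ∨ (α k = 0 ∧ α (k + 1) = 0))) :
    (∀ k < n, c k - α k = 0) ∨ ∃ b', q ≤ b' ∧ InvP n M m b' (fun k => c k - α k) := by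
  classical
  by_cases hex : ∃ k, k < n ∧ c k - α k ≠ 0
  swap
  · left
    intro k hk
    by_contra h0
    exact hex ⟨k, hk, h0⟩
  right
  set b' := Nat.find hex with hb'
  have h1 := Nat.find_spec hex
  rw [← hb'] at h1
  have hlow : ∀ k < b', c k - α k = 0 := by
    intro k hk
    by_contra h0
    exact Nat.find_min hex hk ⟨by omega, h0⟩
  have hq : q ≤ b' := by
    by_contra hq
    rcases lt_or_ge b' b with h2 | h2
    · have := h.low b' h2
      omega
    · have := hsm b' h2 (by omega)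
      omega
  refine ⟨b', hq, hlow, h1.1, fun k => le_trans (Nat.sub_le _ _) (h.hg k), ?_, ?_⟩
  · intro k hk hkn
    induction hk with
    | refl => exact h1.2
    | @step k hk ih =>
      have hk' : b' ≤ k := hk
      have h2 := ih (by omega)
      have h3 := hbig k (by omega)
      have h4 := hbig (k + 1) (by omega)
      have h5 := h.step hm k (by omega)
      have h6 := h.hz (k + 1) (by omega) hkn
      show c (k + 1) - α (k + 1) ≠ 0
      omega
  · intro k hk
    have h3 := hbig k (by omega)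
    have h4 := hbig (k + 1) (by omega)
    rcases h.hK k (by omega) with h5 | h5
    · left
      show k < M ∧ c k - α k + 1 ≤ c (k + 1) - α (k + 1)
      omega
    · right
      show min (n - M) (n - k) + m * (c k - α k) ≤ m * (c (k + 1) - α (k + 1) + 1) + (c k - α k)
      obtain ⟨u, hu⟩ := Nat.exists_eq_add_of_le h3.1
      obtain ⟨v, hv⟩ := Nat.exists_eq_add_of_le h4.1
      rw [hu, hv] at h5
      rw [hu, hv, Nat.add_sub_cancel_left, Nat.add_sub_cancel_left]
      have h6 := hα k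
      rcases h3.2 with h7 | h7
      · have h8 : m * (α (k + 1) + 1) ≤ m * α k := Nat.mul_le_mul_left _ h7
        nlinarith
      · rw [h7.1, h7.2] at h5
        simpa using h5

theorem area_move (n : ℕ) (c α : ℕ → ℕ) :
    ∑ k ∈ range n, (c k - α k) + ∑ k ∈ range n, α k =
      ∑ k ∈ range n, c k + ∑ k ∈ range n, (α k - c k) := by
  rw [← Finset.sum_add_distrib, ← Finset.sum_add_distrib]
  exact Finset.sum_congr rfl fun k _ => by omega

theorem loss_one (G : ℕ) : ∀ e, e ≤ G → ∑ t ∈ range e, t + tri (G - e) ≤ tri G := by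
  intro e he
  have h1 := Finset.sum_range_id_mul_two e
  have h2 := two_tri (G - e)
  have h3 := two_tri G
  obtain ⟨x, rfl⟩ := Nat.exists_eq_add_of_le he
  rw [Nat.add_sub_cancel_left] at h2 ⊢
  rcases e with _ | e
  · simp
  · simp only [Nat.add_sub_cancel] at h1
    nlinarith

theorem loss_two (n b H : ℕ) (ℓ : ℕ → ℕ) : ∀ q, b ≤ q → q ≤ n →
    (∀ k, b ≤ k → k < q → ℓ k ≤ if n - k ≤ H then n - k else 0) →
    ∑ k ∈ Ico b q, ℓ k + tri (min (n - q) H) ≤ tri (min (n - b) H) := by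
  intro q hq
  induction hq with
  | refl => intro _ _; simp
  | @step q hq ih =>
    intro hqn hl
    have hq' : b ≤ q := hq
    have h1 := ih (by omega) fun k h1 h2 => hl k h1 (by omega)
    have h2 := hl q hq' (by omega)
    show ∑ k ∈ Ico b (q + 1), ℓ k + tri (min (n - (q + 1)) H) ≤ _
    rw [Finset.sum_Ico_succ_top hq']
    split_ifs at h2 with h3
    · have e1 : min (n - q) H = (n - (q + 1)) + 1 := by omega
      have e2 : min (n - (q + 1)) H = n - (q + 1) := by omega
      rw [e1, tri] at h1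
      rw [e2]
      omega
    · have e1 : min (n - q) H = H := by omega
      have e2 : min (n - (q + 1)) H = H := by omega
      rw [e1] at h1
      rw [e2]
      omega

variable {n : ℕ} {μ : ι → ℕ} {W : (ℕ → ℕ) → (ℕ → ℕ → ℕ) → Finset ι → ℕ → Prop}

/-- The end game. -/
theorem phaseC (R : Rules n μ W) (M m : ℕ) (hm : 1 ≤ m) : ∀ (Fr : Finset ι),
    (∀ i ∈ Fr, μ i ≤ m) → ∀ (b : ℕ) (c : ℕ → ℕ) (y B : ℕ), M ≤ b → InvP n M m b c →
    ∑ k ∈ range n, c k + B = y + len μ Fr →
    tri m + tri (min (n - b) (2 * m - 2)) ≤ y + B → W c 0 Fr y := by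
  intro Fr
  induction Fr using Finset.strongInduction with
  | H Fr ih =>
  intro hμ b c y B hMb hI hB hW
  by_cases hy : ∑ k ∈ range n, c k ≤ y
  · exact R.zero _ _ _ _ hy
  obtain ⟨i, hi⟩ : Fr.Nonempty := by
    rw [Finset.nonempty_iff_ne_empty]
    rintro rfl
    simp only [len, Finset.sum_empty] at hB
    omega
  have hn : ∀ k, n ≤ k → c k = 0 := fun k hk => by have := hI.hg k; omega
  obtain ⟨α, q, hv, hbq, hqj, hqn, hαj, hα0, -, hsm, hfin⟩ :=
    greedy_spec c (μ i) b n hI.low hI.hb.le hI.hz hn (hI.step hm)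
  have hj := hμ i hi
  refine R.move c 0 Fr y i hi α hv 0 (fun _ _ _ => Or.inl le_rfl) ?_
  have hlowq : ∀ k < q, c k - α k = 0 := by
    intro k hk
    rcases lt_or_ge k b with h | h
    · rw [hI.low k h]; omega
    · have := (hsm k h hk).1
      omega
  rcases hfin with hqn' | ⟨hbig, hsum⟩
  · refine R.zero _ _ _ _ ?_
    rw [Finset.sum_eq_zero fun k hk => hlowq k (by rw [hqn']; exact Finset.mem_range.mp hk)]
    omega
  rcases hI.move hm α q hbq (fun k => (hαj k).trans hj) (fun k h1 h2 => (hsm k h1 h2).1) hbig with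
    h0 | ⟨b', hqb', hI'⟩
  · refine R.zero _ _ _ _ ?_
    rw [Finset.sum_eq_zero fun k hk => h0 k (Finset.mem_range.mp hk)]
    omega
  have hloss : ∑ k ∈ range n, (α k - c k) = ∑ k ∈ Ico b q, (α k - c k) := by
    symm
    apply Finset.sum_subset
    · intro k hk
      rw [Finset.mem_Ico] at hk
      exact Finset.mem_range.mpr (by omega)
    · intro k _ hk
      rw [Finset.mem_Ico] at hk
      rcases lt_or_ge k b with h | h
      · rw [hα0 k h]; omega
      · have := (hbig k (by omega)).1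
        omega
  have hexact : ∀ k, b ≤ k → k < q → 2 * m - 1 ≤ n - k → α k = c k := by
    intro k h1 h2 h3
    refine (hsm k h1 h2).2.2.2 fun t h4 h5 => hI.inc t h4 ?_ (by omega)
    have := (hsm t h4 (by omega)).2.2.1
    omega
  have hL : ∑ k ∈ Ico b q, (α k - c k) + tri (min (n - q) (2 * m - 2)) ≤
      tri (min (n - b) (2 * m - 2)) := by
    rcases le_or_gt (n - b) (2 * m - 2) with hG | hG
    · have h1 := loss_one (n - b) (q - b) (by omega)
      have h2 : ∑ k ∈ Ico b q, (α k - c k) ≤ ∑ t ∈ range (q - b), t := by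
        rw [Finset.sum_Ico_eq_sum_range]
        refine Finset.sum_le_sum fun t ht => ?_
        have := (hsm (b + t) (by omega) (by have := Finset.mem_range.mp ht; omega)).2.1
        omega
      rw [show min (n - q) (2 * m - 2) = n - b - (q - b) by omega,
        show min (n - b) (2 * m - 2) = n - b by omega]
      omega
    · refine loss_two n b _ _ q hbq hqn fun k h1 h2 => ?_
      split_ifs with h3
      · have := hαj k
        have := hI.hz k h1 (by omega)
        omega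
      · rw [hexact k h1 h2 (by omega)]
        omega
  have hA := area_move n c α
  rw [hsum, hloss] at hA
  have hA' := area_le n q (fun k => c k - α k) hlowq fun k _ => by
    have := hI.hg k
    show c k - α k ≤ n - k
    omega
  have hlB : ∑ k ∈ Ico b q, (α k - c k) ≤ B := by
    by_cases h0 : ∑ k ∈ Ico b q, (α k - c k) = 0
    · omega
    · obtain ⟨k, hk, hk0⟩ := Finset.exists_ne_zero_of_sum_ne_zero h0
      rw [Finset.mem_Ico] at hk
      have h1 : n - k ≤ 2 * m - 2 := by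
        by_contra h2
        exact hk0 (by rw [hexact k hk.1 hk.2 (by omega)]; omega)
      have h2 : tri (n - q) ≤ tri (min (n - b) (2 * m - 2)) := tri_mono (by omega)
      have h3 := tri_mono hj
      omega
  have h4 := len_erase μ hi
  have h5 : tri (min (n - b') (2 * m - 2)) ≤ tri (min (n - q) (2 * m - 2)) := tri_mono (by omega)
  refine ih _ (Finset.erase_ssubset hi) (fun i' hi' => hμ i' (Finset.mem_of_mem_erase hi')) b' _ y
    (B - ∑ k ∈ Ico b q, (α k - c k)) (by omega) hI' (by omega) (by omega)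

/-- The opening: exact moves until the bottom row reaches `M`. -/
theorem phaseA (R : Rules n μ W) (M m : ℕ) (hm : 1 ≤ m) (hD : M + 3 * m ≤ n)
    (next : ∀ (Fr : Finset ι), (∀ i ∈ Fr, 1 ≤ μ i ∧ μ i ≤ m) → ∀ (b : ℕ) (c : ℕ → ℕ) (y B : ℕ),
      M ≤ b → InvP n M m b c → ∑ k ∈ range n, c k + B = y + len μ Fr →
      tri (n - (M + m - 1)) ≤ ∑ k ∈ range n, c k → W c 0 Fr y) :
    ∀ (Fr : Finset ι), (∀ i ∈ Fr, 1 ≤ μ i ∧ μ i ≤ m) → ∀ (b : ℕ) (c : ℕ → ℕ) (y B : ℕ),
      InvP n M m b c → ∑ k ∈ range n, c k + B = y + len μ Fr →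
      (∀ k, M + m - 1 ≤ k → n - k ≤ c k) → W c 0 Fr y := by
  intro Fr
  induction Fr using Finset.strongInduction with
  | H Fr ih =>
  intro hμ b c y B hI hB hU
  rcases le_or_gt M b with hMb | hMb
  · exact next Fr hμ b c y B hMb hI hB (area_ge n _ c hU)
  by_cases hy : ∑ k ∈ range n, c k ≤ y
  · exact R.zero _ _ _ _ hy
  obtain ⟨i, hi⟩ : Fr.Nonempty := by
    rw [Finset.nonempty_iff_ne_empty]
    rintro rfl
    simp only [len, Finset.sum_empty] at hB
    omega
  have hn : ∀ k, n ≤ k → c k = 0 := fun k hk => by have := hI.hg k; omega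
  obtain ⟨α, q, hv, hbq, hqj, hqn, hαj, hα0, hα1, hsm, hfin⟩ :=
    greedy_spec c (μ i) b n hI.low hI.hb.le hI.hz hn (hI.step hm)
  have hj := (hμ i hi).2
  refine R.move c 0 Fr y i hi α hv 0 (fun _ _ _ => Or.inl le_rfl) ?_
  rcases hfin with hqn' | ⟨hbig, hsum⟩
  · omega
  rcases hI.move hm α q hbq (fun k => (hαj k).trans hj) (fun k h1 h2 => (hsm k h1 h2).1) hbig with
    h0 | ⟨b', hqb', hI'⟩
  · refine R.zero _ _ _ _ ?_
    rw [Finset.sum_eq_zero fun k hk => h0 k (Finset.mem_range.mp hk)]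
    omega
  have hloss : ∑ k ∈ range n, (α k - c k) = 0 := by
    refine Finset.sum_eq_zero fun k _ => ?_
    rcases lt_or_ge k b with h | h
    · rw [hα0 k h]; omega
    · rcases lt_or_ge k q with h' | h'
      · rw [(hsm k h h').2.2.2 fun t h4 h5 => hI.inc t h4 ?_ (by omega)]
        · omega
        · have := (hsm t h4 (by omega)).2.2.1
          omega
      · have := (hbig k h').1
        omega
  have hA := area_move n c α
  rw [hsum, hloss] at hA
  have h4 := len_erase μ hi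
  refine ih _ (Finset.erase_ssubset hi) (fun i' hi' => hμ i' (Finset.mem_of_mem_erase hi')) b' _ y
    B hI' (by omega) fun k hk => ?_
  have := hU k hk
  have := hα1 k (by omega)
  show n - k ≤ c k - α k
  omega

end Pool.Agent.SHGH54
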