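import Pool.Agent.Lib.MP_6e81d8_ag.H54.Game

/-! Transfer to plane curves of degree at most `d`. The lower bound `always_lower` follows the
proof in the folder H16. -/

set_option autoImplicit false

namespace Pool.Agent.SHGH54

open Finset Module

/-- Polynomials of degree at most `d` vanishing to order `m i` at `p i`. -/
noncomputable abbrev Sys {r : ℕ} (d : ℕ) (m : Fin r → ℕ) (p : Fin r → Fin 2 → ℂ) :
    Submodule ℂ (MvPolynomial (Fin 2) ℂ) :=
  MvPolynomial.restrictTotalDegree (Fin 2) ℂ d ⊓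
    ⨅ i : Fin r, ((RingHom.ker (MvPolynomial.eval (p i))) ^ (m i)).restrictScalars ℂ

/-- The exponent of `x ^ s * y ^ t`. -/
noncomputable def ex (s t : ℕ) : Fin 2 →₀ ℕ := Finsupp.single 0 s + Finsupp.single 1 t

@[simp] theorem ex_zero (s t : ℕ) : ex s t 0 = s := by simp [ex]
@[simp] theorem ex_one (s t : ℕ) : ex s t 1 = t := by simp [ex]

theorem ex_self (e : Fin 2 →₀ ℕ) : ex (e 0) (e 1) = e := by
  ext i
  fin_cases i <;> simp

theorem degree_eq (e : Fin 2 →₀ ℕ) : e.degree = e 0 + e 1 := by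
  rw [Finsupp.degree_eq_sum, Fin.sum_univ_two]

theorem ex_inj {a b a' b' : ℕ} : ex a b = ex a' b' ↔ a = a' ∧ b = b' := by
  constructor
  · intro h
    have h0 := congrArg (fun e => e 0) h
    have h1 := congrArg (fun e => e 1) h
    simp only [ex_zero, ex_one] at h0 h1
    exact ⟨h0, h1⟩
  · rintro ⟨rfl, rfl⟩; rfl

open Polynomial in
theorem coeff_equiv (g : ℂ[X][X]) (a b : ℕ) :
    MvPolynomial.coeff (ex a b) (Polynomial.Bivariate.equivMvPolynomial ℂ g) =
      (g.coeff b).coeff a := by
  induction g using Polynomial.induction_on' with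
  | add p q hp hq => simp [hp, hq]
  | monomial k w =>
    induction w using Polynomial.induction_on' with
    | add p q hp hq => simp only [map_add, MvPolynomial.coeff_add, coeff_add, hp, hq]
    | monomial e z =>
      have : (monomial k (monomial e z) : ℂ[X][X]) = C (C z) * (C X) ^ e * X ^ k := by
        rw [← C_mul_X_pow_eq_monomial, ← C_mul_X_pow_eq_monomial, map_mul, map_pow]
      have h2 : Polynomial.Bivariate.equivMvPolynomial ℂ (monomial k (monomial e z) : ℂ[X][X]) =
          MvPolynomial.monomial (ex e k) z := by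
        rw [this, map_mul, map_mul, map_pow, map_pow,
          Polynomial.Bivariate.equivMvPolynomial_C_C, Polynomial.Bivariate.equivMvPolynomial_C_X,
          Polynomial.Bivariate.equivMvPolynomial_X, ex, MvPolynomial.monomial_add_single,
          MvPolynomial.C_mul_X_pow_eq_monomial]
      rw [h2, MvPolynomial.coeff_monomial, coeff_monomial]
      by_cases hk : k = b
      · simp [hk, coeff_monomial, ex_inj]
      · simp [hk, ex_inj]

open Polynomial in
/-- The coefficient of `y ^ k`, a polynomial in `x`. -/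
noncomputable def rowOf (d k : ℕ) : MvPolynomial.restrictTotalDegree (Fin 2) ℂ d →ₗ[ℂ] ℂ[X] :=
  ((lcoeff ℂ[X] k).restrictScalars ℂ) ∘ₗ
    (Polynomial.Bivariate.equivMvPolynomial ℂ).symm.toLinearMap ∘ₗ Submodule.subtype _

theorem rowOf_apply (d k : ℕ) (f : MvPolynomial.restrictTotalDegree (Fin 2) ℂ d) :
    rowOf d k f = ((Polynomial.Bivariate.equivMvPolynomial ℂ).symm f.1).coeff k := rfl

theorem coeff_rowOf (d k a : ℕ) (f : MvPolynomial.restrictTotalDegree (Fin 2) ℂ d) :
    (rowOf d k f).coeff a = MvPolynomial.coeff (ex a k) f.1 := by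
  rw [rowOf_apply, ← coeff_equiv, AlgEquiv.apply_symm_apply]

theorem coeff_zero_of_lt (d : ℕ) (f : MvPolynomial.restrictTotalDegree (Fin 2) ℂ d) (a k : ℕ)
    (h : d < a + k) : MvPolynomial.coeff (ex a k) f.1 = 0 := by
  apply MvPolynomial.coeff_eq_zero_of_totalDegree_lt
  have h1 := (MvPolynomial.mem_restrictTotalDegree _ _ _).mp f.2
  have h2 : ∑ i ∈ (ex a k).support, ex a k i = a + k := by
    have := degree_eq (ex a k)
    rw [ex_zero, ex_one] at this
    exact this
  omega

theorem rowOf_mem (d k : ℕ) (f : MvPolynomial.restrictTotalDegree (Fin 2) ℂ d) :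
    rowOf d k f ∈ Polynomial.degreeLT ℂ (d + 1 - k) := by
  rw [Polynomial.mem_degreeLT, Polynomial.degree_lt_iff_coeff_zero]
  intro a ha
  rw [coeff_rowOf]
  exact coeff_zero_of_lt d f a k (by omega)

theorem rowOf_inj (d : ℕ) (f : MvPolynomial.restrictTotalDegree (Fin 2) ℂ d)
    (h : ∀ k < d + 1, rowOf d k f = 0) : f = 0 := by
  apply Subtype.ext
  ext e
  rw [← ex_self e]
  rcases lt_or_ge (e 1) (d + 1) with h1 | h1
  · rw [← coeff_rowOf, h _ h1]; simp
  · rw [coeff_zero_of_lt d f _ _ (by omega)]; simp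

open Polynomial in
theorem jet_eq (d : ℕ) (p : Fin 2 → ℂ) (a b : ℕ)
    (f : MvPolynomial.restrictTotalDegree (Fin 2) ℂ d) :
    jet (rowOf d) (d + 1) (p 0) (p 1) a b f = MvPolynomial.coeff (ex a b)
      (MvPolynomial.aeval (fun e => MvPolynomial.X e + MvPolynomial.C (p e)) f.1) := by
  set E := Polynomial.Bivariate.equivMvPolynomial ℂ with hE
  have hT : ∀ g : ℂ[X][X],
      MvPolynomial.aeval (fun e => MvPolynomial.X e + MvPolynomial.C (p e)) (E g) =
        E ((taylor (C (p 1)) g).map (taylorAlgHom (p 0)).toRingHom) := by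
    intro g
    induction g using Polynomial.induction_on' with
    | add p q hp hq => simp only [map_add, Polynomial.map_add, hp, hq]
    | monomial k w =>
      induction w using Polynomial.induction_on' with
      | add p q hp hq => simp only [map_add, Polynomial.map_add, hp, hq]
      | monomial e z =>
        have : (monomial k (monomial e z) : ℂ[X][X]) = C (C z) * (C X) ^ e * X ^ k := by
          rw [← C_mul_X_pow_eq_monomial, ← C_mul_X_pow_eq_monomial, map_mul, map_pow]
        rw [this]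
        simp [hE, taylor_mul, taylor_pow, Polynomial.map_mul, Polynomial.map_pow]
  have hf : f.1 = E (E.symm f.1) := (AlgEquiv.apply_symm_apply _ _).symm
  rw [hf, hT, coeff_equiv, coeff_map, taylor_coeff, jet_apply]
  set g := E.symm f.1 with hg
  have hdeg : g.natDegree < d + 1 := by
    by_cases h0 : g = 0
    · rw [h0]; simp
    · rw [natDegree_lt_iff_degree_lt h0, degree_lt_iff_coeff_zero]
      intro k hk
      have := rowOf_mem d k f
      rw [show d + 1 - k = 0 by omega, mem_degreeLT, degree_lt_iff_coeff_zero] at this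
      ext a
      exact this a (Nat.zero_le a)
  rw [hasseDeriv_apply, sum_over_range' _ (by simp) (d + 1) hdeg, eval_finsetSum, map_sum,
    finsetSum_coeff]
  refine Finset.sum_congr rfl fun k _ => ?_
  rw [tay_eq, rowOf_apply, ← hg, eval_monomial]
  have : ((k.choose b : ℂ[X]) * g.coeff k * C (p 1) ^ (k - b)) =
      C ((k.choose b : ℂ) * p 1 ^ (k - b)) * g.coeff k := by
    simp only [map_mul, map_pow, map_natCast]; ring
  rw [this]
  show _ = (taylor (p 0) (C _ * g.coeff k)).coeff a
  rw [taylor_mul, taylor_C, coeff_C_mul]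

theorem jet_zero_of_mem (d : ℕ) (p : Fin 2 → ℂ) (j a b : ℕ) (hab : a + b < j)
    (f : MvPolynomial.restrictTotalDegree (Fin 2) ℂ d)
    (hf : f.1 ∈ (RingHom.ker (MvPolynomial.eval p)) ^ j) :
    jet (rowOf d) (d + 1) (p 0) (p 1) a b f = 0 := by
  rw [jet_eq]
  set τ : MvPolynomial (Fin 2) ℂ →ₐ[ℂ] MvPolynomial (Fin 2) ℂ :=
    MvPolynomial.aeval (fun e => MvPolynomial.X e + MvPolynomial.C (p e)) with hτ
  have h2 : Ideal.map τ (RingHom.ker (MvPolynomial.eval p)) ≤ MvPolynomial.idealOfVars (Fin 2) ℂ := by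
    rw [Ideal.map_le_iff_le_comap]
    intro q hq
    rw [Ideal.mem_comap, ← pow_one (MvPolynomial.idealOfVars (Fin 2) ℂ),
      MvPolynomial.mem_pow_idealOfVars_iff']
    intro x hx
    have hx0 : x = 0 := by
      rw [degree_eq] at hx
      rw [← ex_self x, show x 0 = 0 by omega, show x 1 = 0 by omega]
      simp [ex]
    rw [hx0, ← MvPolynomial.constantCoeff_eq]
    have : (MvPolynomial.constantCoeff.comp (τ : MvPolynomial (Fin 2) ℂ →+* MvPolynomial (Fin 2) ℂ)) =
        MvPolynomial.eval p := by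
      ext <;> simp [hτ]
    exact (DFunLike.congr_fun this q).trans hq
  have h3 := Ideal.mem_map_of_mem τ hf
  rw [Ideal.map_pow] at h3
  have h4 := Ideal.pow_right_mono h2 _ h3
  rw [MvPolynomial.mem_pow_idealOfVars_iff'] at h4
  exact h4 _ (by rw [degree_eq]; simpa using hab)

theorem card_tri (n : ℕ) : Fintype.card (Σ k : Fin n, Fin (n - k)) = tri n := by
  simp only [Fintype.card_sigma, Fintype.card_fin]
  rw [Fin.sum_univ_eq_sum_range (fun k => n - k) n, sum_range_sub n n le_rfl]

theorem finrank_ge (d : ℕ) :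
    tri (d + 1) ≤ finrank ℂ (MvPolynomial.restrictTotalDegree (Fin 2) ℂ d) := by
  let v : (Σ k : Fin (d + 1), Fin (d + 1 - k)) → MvPolynomial.restrictTotalDegree (Fin 2) ℂ d :=
    fun s => ⟨MvPolynomial.monomial (ex s.2 s.1) 1, by
      rw [MvPolynomial.mem_restrictTotalDegree]
      refine (MvPolynomial.totalDegree_monomial_le _ _).trans ?_
      have := s.2.isLt
      rw [Finsupp.sum_fintype _ _ (fun _ => rfl), Fin.sum_univ_two]
      simp only [ex_zero, ex_one, id]
      omega⟩
  have hli : LinearIndependent ℂ v := by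
    apply LinearIndependent.of_comp (Submodule.subtype _)
    have := (MvPolynomial.basisMonomials (Fin 2) ℂ).linearIndependent.comp
      (fun s : (Σ k : Fin (d + 1), Fin (d + 1 - k)) => ex s.2 s.1) (by
        rintro ⟨k, a⟩ ⟨k', a'⟩ h
        obtain ⟨h1, h2⟩ := ex_inj.mp h
        obtain rfl : k = k' := Fin.ext h2
        obtain rfl : a = a' := Fin.ext h1
        rfl)
    convert this using 1
    funext s
    simp [v]
  have := hli.fintype_card_le_finrank
  rwa [card_tri] at this

open MvPolynomial in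
theorem always_lower {r : ℕ} (d : ℕ) (m : Fin r → ℕ) (p : Fin r → Fin 2 → ℂ) :
    tri (d + 1) ≤ finrank ℂ (Sys d m p) + len m Finset.univ := by
  classical
  let τ : Fin r → (MvPolynomial (Fin 2) ℂ →ₐ[ℂ] MvPolynomial (Fin 2) ℂ) :=
    fun i => aeval (fun e => X e + C (p i e))
  let σ : Fin r → (MvPolynomial (Fin 2) ℂ →ₐ[ℂ] MvPolynomial (Fin 2) ℂ) :=
    fun i => aeval (fun e => X e - C (p i e))
  have hστ : ∀ i f, σ i (τ i f) = f := by
    intro i f
    have : (σ i).comp (τ i) = AlgHom.id ℂ _ := by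
      ext e
      simp [σ, τ]
    exact DFunLike.congr_fun this f
  let Ψ : restrictTotalDegree (Fin 2) ℂ d →ₗ[ℂ]
      ((Σ i : Fin r, Σ k : Fin (m i), Fin (m i - k)) → ℂ) :=
    LinearMap.pi (fun c => (lcoeff ℂ (ex c.2.2.val c.2.1.val)).comp
      ((τ c.1).toLinearMap.comp (Submodule.subtype _)))
  have hker : (LinearMap.ker Ψ).map (Submodule.subtype _) ≤ Sys d m p := by
    rintro _ ⟨f, hf, rfl⟩
    refine ⟨f.2, ?_⟩
    simp only [Submodule.coe_iInf, Set.mem_iInter, SetLike.mem_coe]
    intro i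
    have h1 : τ i f.1 ∈ idealOfVars (Fin 2) ℂ ^ (m i) := by
      rw [mem_pow_idealOfVars_iff']
      intro e he
      rw [degree_eq] at he
      have := congrFun (LinearMap.mem_ker.mp hf) ⟨i, ⟨e 1, by omega⟩, ⟨e 0, by simp only; omega⟩⟩
      simpa [Ψ, ex_self] using this
    have h2 : Ideal.map (σ i) (idealOfVars (Fin 2) ℂ) ≤ RingHom.ker (eval (p i)) := by
      rw [idealOfVars, Ideal.map_span, Ideal.span_le]
      rintro _ ⟨_, ⟨e, rfl⟩, rfl⟩
      simp [σ, RingHom.mem_ker]
    have h3 := Ideal.mem_map_of_mem (σ i) h1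
    rw [Ideal.map_pow, hστ] at h3
    exact Ideal.pow_right_mono h2 _ h3
  have : Module.Finite ℂ (Sys d m p) :=
    Module.Finite.of_injective (Submodule.inclusion (inf_le_left : Sys d m p ≤ _))
      (Submodule.inclusion_injective _)
  have h1 := Submodule.finrank_mono hker
  rw [Submodule.finrank_map_subtype_eq] at h1
  have h2 := LinearMap.finrank_range_add_finrank_ker Ψ
  have h3 : finrank ℂ (LinearMap.range Ψ) ≤ len m Finset.univ := by
    have := Submodule.finrank_le (LinearMap.range Ψ)
    rw [Module.finrank_fintype_fun_eq_card, Fintype.card_sigma] at this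
    simpa only [card_tri, len] using this
  have h5 := finrank_ge d
  omega

theorem rules_won {r : ℕ} (d : ℕ) (m : Fin r → ℕ) :
    Rules (d + 1) m (Won (rowOf d) (d + 1) m) where
  mono := fun h h1 h2 h3 => Won.mono _ _ _ h h1 h2 h3
  zero := won_zero _ _ _ (rowOf_inj d)
  move := won_move _ _ _
  simple := won_simple _ _ _ (rowOf_inj d)
  split := won_split _ _ _

/-- A won game gives the expected dimension at general points. -/
theorem expected_of_won {r : ℕ} (d : ℕ) (m : Fin r → ℕ)
    (h : Won (rowOf d) (d + 1) m (fun k => d + 1 - k) 0 Finset.univ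
      (tri (d + 1) - len m Finset.univ)) :
    ∃ F : MvPolynomial (Fin r × Fin 2) ℂ, F ≠ 0 ∧
      ∀ p : Fin r → Fin 2 → ℂ,
        MvPolynomial.eval (fun ij : Fin r × Fin 2 => p ij.1 ij.2) F ≠ 0 →
        ((finrank ℂ (Sys d m p) : ℤ) - 1)
          = max (-1) (((d * (d + 3) / 2 : ℕ) : ℤ)
              - ∑ i : Fin r, ((m i * (m i + 1) / 2 : ℕ) : ℤ)) := by
  obtain ⟨F, hF, H⟩ := h (fun k => d + 1 - k) 0 ⟨fun k _ => by omega, fun w k _ => by simp⟩
  refine ⟨F, hF, fun p hp => ?_⟩
  have h1 := H _ hp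
  have h2 : Sys d m p ≤ (Sol (rowOf d) (d + 1) m (fun k => d + 1 - k) Finset.univ 0
      (fun ij : Fin r × Fin 2 => p ij.1 ij.2)).map (Submodule.subtype _) := by
    intro f hf
    refine ⟨⟨f, hf.1⟩, ?_, rfl⟩
    refine (mem_Sol _ _ _ _ _ _ _ _).mpr ⟨fun k _ => rowOf_mem d k _, fun i _ a b hab => ?_,
      fun i hi => absurd (Finset.mem_univ i) hi⟩
    have := hf.2
    simp only [Submodule.coe_iInf, Set.mem_iInter, SetLike.mem_coe] at this
    exact jet_zero_of_mem d (p i) (m i) a b hab _ (this i)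
  have h3 := Submodule.finrank_mono h2
  rw [Submodule.finrank_map_subtype_eq] at h3
  have h4 := always_lower d m p
  have h5 : ∑ i : Fin r, ((m i * (m i + 1) / 2 : ℕ) : ℤ) = (len m Finset.univ : ℤ) := by
    rw [len, Nat.cast_sum]
    refine Finset.sum_congr rfl fun i _ => ?_
    have := two_tri (m i)
    omega
  have h6 : d * (d + 3) / 2 + 1 = tri (d + 1) := by
    have := two_tri (d + 1)
    have h7 : (d + 1) * (d + 1 + 1) = d * (d + 3) + 2 := by ring
    omega
  rw [h5]
  omega

end Pool.Agent.SHGH54
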