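import Pool.Agent.Lib.MP_6e81d8_ag.H54.Generic

/-! One-variable lemmas: Taylor coefficients, Vandermonde, counting zeros, generic multiple
points of a linear system on the line. -/

set_option autoImplicit false

namespace Pool.Agent.SHGH54

open Polynomial Module

/-- The `a`-th Taylor coefficient at `s`. -/
noncomputable def tay {R : Type} [CommRing R] [Algebra ℂ R] (s : R) (a : ℕ) : ℂ[X] →ₗ[ℂ] R :=
  (Polynomial.aeval s).toLinearMap ∘ₗ Polynomial.hasseDeriv a

theorem tay_apply {R : Type} [CommRing R] [Algebra ℂ R] (s : R) (a : ℕ) (w : ℂ[X]) :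
    tay s a w = Polynomial.aeval s (Polynomial.hasseDeriv a w) := rfl

theorem map_tay {R R' : Type} [CommRing R] [Algebra ℂ R] [CommRing R'] [Algebra ℂ R']
    (φ : R →ₐ[ℂ] R') (s : R) (a : ℕ) (w : ℂ[X]) : φ (tay s a w) = tay (φ s) a w := by
  rw [tay_apply, tay_apply, Polynomial.aeval_algHom_apply]

theorem tay_eq (s : ℂ) (a : ℕ) (w : ℂ[X]) : tay s a w = (taylor s w).coeff a := by
  rw [tay_apply, taylor_coeff, Polynomial.coe_aeval_eq_eval]

theorem dvd_of_tay (s : ℂ) (l : ℕ) (w : ℂ[X]) (h : ∀ a < l, tay s a w = 0) :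
    (X - C s) ^ l ∣ w := by
  have h1 : (X : ℂ[X]) ^ l ∣ taylor s w := X_pow_dvd_iff.mpr fun a ha => by
    rw [← tay_eq]; exact h a ha
  obtain ⟨q, hq⟩ := h1
  refine ⟨taylor (-s) q, ?_⟩
  have h2 := congrArg (taylor (-s)) hq
  rw [taylor_taylor, neg_add_cancel, taylor_zero, taylor_mul, taylor_X_pow] at h2
  rw [h2, map_neg, sub_eq_add_neg]

/-- A polynomial of degree `< D` with at least `D` zeros counted with multiplicity vanishes. -/
theorem kill {κ : Type} (T : Finset κ) (z : κ → ℂ) (hz : Set.InjOn z T) (l : κ → ℕ) (D : ℕ)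
    (w : ℂ[X]) (hw : w ∈ degreeLT ℂ D) (hv : ∀ i ∈ T, ∀ a < l i, tay (z i) a w = 0)
    (hD : D ≤ ∑ i ∈ T, l i) : w = 0 := by
  classical
  have hdvd : ∏ i ∈ T, (X - C (z i)) ^ l i ∣ w := by
    apply Finset.prod_dvd_of_coprime
    · intro i hi j hj hij
      apply IsCoprime.pow
      apply isCoprime_X_sub_C_of_isUnit_sub
      exact (sub_ne_zero.mpr fun h => hij (hz hi hj h)).isUnit
    · intro i hi
      exact dvd_of_tay _ _ _ (hv i hi)
  by_contra h0
  have h1 := Polynomial.natDegree_le_of_dvd hdvd h0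
  rw [Polynomial.natDegree_prod_of_monic _ _ (fun i _ => (monic_X_sub_C _).pow _)] at h1
  simp only [natDegree_pow, natDegree_X_sub_C, mul_one] at h1
  have h2 := (Polynomial.natDegree_lt_iff_degree_lt h0).mpr (mem_degreeLT.mp hw)
  omega

/-- Vandermonde: few nonzero terms and many binomial moments vanishing force zero. -/
theorem van (s : Finset ℕ) (ω : ℕ) : ∀ (a : ℕ → ℂ),
    (∀ i < ω, ∑ u ∈ s, (u.choose i : ℂ) * a u = 0) →
    (s.filter (fun u => a u ≠ 0)).card ≤ ω → ∀ u ∈ s, a u = 0 := by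
  classical
  induction ω with
  | zero =>
    intro a _ hc u hu
    by_contra h
    have : u ∈ s.filter (fun u => a u ≠ 0) := Finset.mem_filter.mpr ⟨hu, h⟩
    have := Finset.card_pos.mpr ⟨u, this⟩
    omega
  | succ ω ih =>
    intro a hm hc u0 hu0
    by_contra h0
    have hmem : u0 ∈ s.filter (fun u => a u ≠ 0) := Finset.mem_filter.mpr ⟨hu0, h0⟩
    have key := ih (fun u => ((u : ℂ) - u0) * a u) (by
      intro i hi
      have e1 := hm i (by omega)
      have e2 := hm (i + 1) (by omega)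
      have : ∀ u ∈ s, (u.choose i : ℂ) * (((u : ℂ) - u0) * a u) =
          ((i : ℂ) + 1) * ((u.choose (i + 1) : ℂ) * a u) +
            ((i : ℂ) - u0) * ((u.choose i : ℂ) * a u) := by
        intro u _
        have h3 : (u.choose (i + 1) : ℂ) * ((i : ℂ) + 1) = (u.choose i : ℂ) * ((u : ℂ) - i) := by
          rcases le_or_gt i u with h | h
          · have := congrArg (Nat.cast : ℕ → ℂ) (Nat.choose_succ_right_eq u i)
            push_cast [Nat.cast_sub h] at this
            exact this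
          · rw [Nat.choose_eq_zero_of_lt h, Nat.choose_eq_zero_of_lt (by omega)]
            simp
        linear_combination (-(a u)) * h3
      rw [Finset.sum_congr rfl this, Finset.sum_add_distrib, ← Finset.mul_sum, ← Finset.mul_sum,
        e1, e2]
      simp) (by
      have hsub : s.filter (fun u : ℕ => ((u : ℂ) - u0) * a u ≠ 0) ⊆
          (s.filter (fun u => a u ≠ 0)).erase u0 := by
        intro u hu
        rw [Finset.mem_filter] at hu
        refine Finset.mem_erase.mpr ⟨?_, Finset.mem_filter.mpr ⟨hu.1, right_ne_zero_of_mul hu.2⟩⟩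
        rintro rfl
        exact hu.2 (by simp)
      have := Finset.card_le_card hsub
      rw [Finset.card_erase_of_mem hmem] at this
      omega)
    have e0 := hm 0 (by omega)
    rw [Finset.sum_eq_single u0] at e0
    · exact h0 (by simpa using e0)
    · intro u hu hne
      have h1 := key u hu
      have h2 : ((u : ℂ) - u0) ≠ 0 := sub_ne_zero.mpr (by exact_mod_cast hne)
      simp [(mul_eq_zero.mp h1).resolve_left h2]
    · intro h; exact absurd hu0 h

theorem li_of_top (T : Finset ℕ) (p : ℕ → ℂ[X]) (h1 : ∀ μ ∈ T, (p μ).coeff μ ≠ 0)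
    (h2 : ∀ μ ∈ T, ∀ ν, μ < ν → (p μ).coeff ν = 0) :
    LinearIndependent ℂ (fun μ : T => p μ) := by
  classical
  rw [Fintype.linearIndependent_iff]
  intro g hg
  by_contra hne
  push Not at hne
  obtain ⟨i, hi, hmax⟩ := Finset.exists_max_image (Finset.univ.filter fun i : T => g i ≠ 0)
    (fun i : T => (i : ℕ)) (by
      obtain ⟨i, hi⟩ := hne
      exact ⟨i, by simpa using hi⟩)
  have hgi : g i ≠ 0 := by simpa using hi
  have h3 := congrArg (fun q => Polynomial.coeff q i) hg
  simp only [finsetSum_coeff, coeff_smul, smul_eq_mul, coeff_zero] at h3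
  rw [Finset.sum_eq_single i] at h3
  · exact (mul_ne_zero hgi (h1 i i.2)) h3
  · intro j _ hji
    by_cases hgj : g j = 0
    · simp [hgj]
    · have h4 := hmax j (by simpa using hgj)
      have h5 : (j : ℕ) ≠ i := fun h => hji (Subtype.ext h)
      rw [h2 j j.2 i (by omega), mul_zero]
  · intro h; exact absurd (Finset.mem_univ i) h

theorem exists_good (δ : ℂ[X]) (hδ : δ ≠ 0) (E : Finset ℂ) : ∃ s, s ∉ E ∧ δ.eval s ≠ 0 := by
  classical
  obtain ⟨s, hs⟩ := Infinite.exists_notMem_finset (E ∪ δ.roots.toFinset)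
  rw [Finset.mem_union, not_or] at hs
  refine ⟨s, hs.1, fun h => hs.2 ?_⟩
  simp [hδ, h]

theorem wronsk0 (W : Submodule ℂ ℂ[X]) [FiniteDimensional ℂ W] (α : ℕ) (hW : finrank ℂ W ≤ α)
    (E : Finset ℂ) : ∃ s, s ∉ E ∧ ∀ w ∈ W, (∀ a < α, tay s a w = 0) → w = 0 := by
  classical
  let Φ : Fin α → W →ₗ[ℂ] ℂ[X] := fun i =>
    (LinearMap.mulLeft ℂ ((X : ℂ[X]) ^ (i : ℕ))) ∘ₗ (hasseDeriv (i : ℕ)) ∘ₗ W.subtype
  have hΦ : ∀ (i : Fin α) (w : W), Φ i w = X ^ (i : ℕ) * hasseDeriv (i : ℕ) (w : ℂ[X]) :=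
    fun i w => rfl
  have hΦc : ∀ (i : Fin α) (w : W) (μ : ℕ),
      (Φ i w).coeff μ = (μ.choose i : ℂ) * (w : ℂ[X]).coeff μ := by
    intro i w μ
    rw [hΦ, coeff_X_pow_mul']
    split_ifs with h
    · rw [hasseDeriv_coeff, Nat.sub_add_cancel h]
    · rw [Nat.choose_eq_zero_of_lt (by omega)]; simp
  rcases fam Φ with ⟨δ, hδ, H⟩ | ⟨G, ⟨B, hB⟩, ⟨ν1, hν1⟩, hG⟩
  · obtain ⟨s, hsE, hs⟩ := exists_good δ hδ E
    refine ⟨s, hsE, fun w hw h => ?_⟩
    have := H s hs ⟨w, hw⟩ (fun i => by
      rw [hΦ, eval_mul]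
      have := h i i.2
      rw [tay_apply, Polynomial.coe_aeval_eq_eval] at this
      simp [this])
    simpa using this
  · exfalso
    obtain ⟨ν0, hν0, hmax⟩ := Finset.exists_max_image
      ((Finset.range B).filter fun ν => G ν ≠ 0) (fun ν => ν + (G ν : ℂ[X]).natDegree) (by
        refine ⟨ν1, Finset.mem_filter.mpr ⟨Finset.mem_range.mpr ?_, hν1⟩⟩
        by_contra h
        exact hν1 (hB ν1 (by omega)))
    set N := ν0 + (G ν0 : ℂ[X]).natDegree with hN
    have hle : ∀ ν, ∀ μ, N < ν + μ → (G ν : ℂ[X]).coeff μ = 0 := by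
      intro ν μ h
      by_cases h0 : G ν = 0
      · simp [h0]
      · have hνB : ν < B := by
          by_contra h'
          exact h0 (hB ν (by omega))
        have := hmax ν (Finset.mem_filter.mpr ⟨Finset.mem_range.mpr hνB, h0⟩)
        exact coeff_eq_zero_of_natDegree_lt (by omega)
    let a : ℕ → ℂ := fun μ => (G (N - μ) : ℂ[X]).coeff μ
    have hz := van (Finset.range (N + 1)) α a (by
      intro i hi
      have h1 := hG ⟨i, hi⟩ N
      rw [← Finset.sum_range_reflect] at h1
      rw [← h1]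
      refine Finset.sum_congr rfl fun μ hμ => ?_
      rw [Finset.mem_range] at hμ
      rw [hΦc]
      have e1 : N + 1 - 1 - μ = N - μ := by omega
      have e2 : N - (N - μ) = μ := by omega
      simp only [e1, e2, a]) (by
      set T := (Finset.range (N + 1)).filter (fun u => a u ≠ 0) with hT
      have hli := li_of_top T (fun μ => (G (N - μ) : ℂ[X])) (fun μ hμ => (Finset.mem_filter.mp hμ).2)
        (fun μ hμ ν hν => by
          have := Finset.mem_range.mp (Finset.mem_filter.mp hμ).1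
          exact hle _ _ (by omega))
      have hli2 : LinearIndependent ℂ (fun μ : T => G (N - μ)) :=
        LinearIndependent.of_comp W.subtype hli
      have := hli2.fintype_card_le_finrank
      simp only [Fintype.card_coe] at this
      omega)
    have h3 := hz (G ν0 : ℂ[X]).natDegree (Finset.mem_range.mpr (by omega))
    have e3 : N - (G ν0 : ℂ[X]).natDegree = ν0 := by omega
    simp only [a, e3] at h3
    have h4 : (G ν0 : ℂ[X]) = 0 := leadingCoeff_eq_zero.mp h3
    exact (Finset.mem_filter.mp hν0).2 (Subtype.ext h4)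

/-- Polynomials vanishing to order `α` at `s`. -/
noncomputable def Van (s : ℂ) (α : ℕ) : Submodule ℂ ℂ[X] :=
  ⨅ a : Fin α, LinearMap.ker (tay s a)

theorem mem_Van (s : ℂ) (α : ℕ) (w : ℂ[X]) : w ∈ Van s α ↔ ∀ a < α, tay s a w = 0 := by
  simp [Van, Submodule.mem_iInf, Fin.forall_iff]

/-- A generic `α`-fold point imposes the expected number of conditions on any linear system on
the line. -/
theorem wronsk (W : Submodule ℂ ℂ[X]) [FiniteDimensional ℂ W] (α : ℕ) (E : Finset ℂ) :
    ∃ s, s ∉ E ∧ finrank ℂ ↥(W ⊓ Van s α) ≤ finrank ℂ W - α := by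
  rcases le_or_gt (finrank ℂ W) α with h | h
  · obtain ⟨s, hs, H⟩ := wronsk0 W α h E
    refine ⟨s, hs, ?_⟩
    have : W ⊓ Van s α = ⊥ := by
      rw [eq_bot_iff]
      intro w hw
      exact H w hw.1 ((mem_Van _ _ _).mp hw.2)
    rw [this]; simp
  · obtain ⟨f, hf⟩ := exists_linearIndependent_of_le_finrank (R := ℂ) (M := W) h.le
    have hf2 : LinearIndependent ℂ (W.subtype ∘ f) := hf.map' _ (Submodule.ker_subtype W)
    set W0 := Submodule.span ℂ (Set.range (W.subtype ∘ f)) with hW0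
    have hle : W0 ≤ W := Submodule.span_le.mpr (by rintro _ ⟨i, rfl⟩; exact (f i).2)
    have hfr : finrank ℂ W0 = α := by rw [hW0, finrank_span_eq_card hf2]; simp
    have : FiniteDimensional ℂ W0 := Submodule.finiteDimensional_of_le hle
    obtain ⟨s, hs, H⟩ := wronsk0 W0 α hfr.le E
    refine ⟨s, hs, ?_⟩
    have : FiniteDimensional ℂ ↥(W ⊓ Van s α) := Submodule.finiteDimensional_of_le inf_le_left
    have h1 := Submodule.finrank_sup_add_finrank_inf_eq (W ⊓ Van s α) W0
    have h2 : (W ⊓ Van s α) ⊓ W0 = ⊥ := by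
      rw [eq_bot_iff]
      intro w hw
      exact H w hw.2 ((mem_Van _ _ _).mp hw.1.2)
    have h3 : finrank ℂ ↥((W ⊓ Van s α) ⊔ W0) ≤ finrank ℂ W :=
      Submodule.finrank_mono (sup_le inf_le_left hle)
    rw [h2] at h1
    simp only [finrank_bot, add_zero] at h1
    omega

end Pool.Agent.SHGH54
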