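import Pool.Agent.Lib.MP_6e81d8_ag.H54.Row

/-! Solution spaces for fat points and layered conditions on the line, and the many-layer
differential Horace lemma. -/

set_option autoImplicit false

namespace Pool.Agent.SHGH54

open Polynomial Module Finset

variable {V : Type} [AddCommGroup V] [Module ℂ V]
variable (row : ℕ → V →ₗ[ℂ] ℂ[X]) (n : ℕ)

/-- The coefficient of `X^a Y^b` in `f(s+X, t+Y)`, where `f = ∑ row k f * y^k`. -/
noncomputable def jet {R : Type} [CommRing R] [Algebra ℂ R] (s t : R) (a b : ℕ) : V →ₗ[ℂ] R :=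
  ∑ k ∈ range n, (LinearMap.mulLeft ℂ ((k.choose b : R) * t ^ (k - b))) ∘ₗ tay s a ∘ₗ row k

theorem jet_apply {R : Type} [CommRing R] [Algebra ℂ R] (s t : R) (a b : ℕ) (f : V) :
    jet row n s t a b f = ∑ k ∈ range n, (k.choose b : R) * t ^ (k - b) * tay s a (row k f) := by
  simp [jet, LinearMap.sum_apply, mul_assoc]

theorem map_jet {R R' : Type} [CommRing R] [Algebra ℂ R] [CommRing R'] [Algebra ℂ R']
    (φ : R →ₐ[ℂ] R') (s t : R) (a b : ℕ) (f : V) :
    φ (jet row n s t a b f) = jet row n (φ s) (φ t) a b f := by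
  simp [jet_apply, map_sum, map_tay]

variable {ι : Type} [DecidableEq ι] (μ : ι → ℕ)

/-- The linear conditions of a state. -/
noncomputable def cond {R : Type} [CommRing R] [Algebra ℂ R] (F : ℕ → ℕ) (Fr : Finset ι)
    (lam : ι → ℕ → ℕ) (x : ι × Fin 2 → R) :
    (ℕ × ℕ) ⊕ (ι × ℕ × ℕ) ⊕ (ι × ℕ × ℕ) → V →ₗ[ℂ] R
  | Sum.inl (k, e) =>
      if k < n ∧ F k ≤ e then (Algebra.linearMap ℂ R) ∘ₗ (lcoeff ℂ e) ∘ₗ row k else 0
  | Sum.inr (Sum.inl (i, a, b)) =>
      if i ∈ Fr ∧ a + b < μ i then jet row n (x (i, 0)) (x (i, 1)) a b else 0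
  | Sum.inr (Sum.inr (i, k, a)) =>
      if i ∉ Fr ∧ k < n ∧ a < lam i k then tay (x (i, 0)) a ∘ₗ row k else 0

theorem map_cond {R R' : Type} [CommRing R] [Algebra ℂ R] [CommRing R'] [Algebra ℂ R']
    (φ : R →ₐ[ℂ] R') (F : ℕ → ℕ) (Fr : Finset ι) (lam : ι → ℕ → ℕ) (x : ι × Fin 2 → R)
    (j : (ℕ × ℕ) ⊕ (ι × ℕ × ℕ) ⊕ (ι × ℕ × ℕ)) (f : V) :
    φ (cond row n μ F Fr lam x j f) = cond row n μ F Fr lam (fun z => φ (x z)) j f := by
  rcases j with ⟨k, e⟩ | ⟨i, a, b⟩ | ⟨i, k, a⟩
  · simp only [cond]; split_ifs <;> simp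
  · simp only [cond]; split_ifs
    · exact map_jet row n φ _ _ _ _ _
    · simp
  · simp only [cond]; split_ifs
    · exact map_tay φ _ _ _
    · simp

/-- The solution space of a state at the configuration `x`. -/
noncomputable def Sol (F : ℕ → ℕ) (Fr : Finset ι) (lam : ι → ℕ → ℕ) (x : ι × Fin 2 → ℂ) :
    Submodule ℂ V :=
  ⨅ j, LinearMap.ker (cond row n μ F Fr lam x j)

theorem mem_Sol (F : ℕ → ℕ) (Fr : Finset ι) (lam : ι → ℕ → ℕ) (x : ι × Fin 2 → ℂ) (f : V) :
    f ∈ Sol row n μ F Fr lam x ↔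
      (∀ k < n, row k f ∈ degreeLT ℂ (F k)) ∧
      (∀ i ∈ Fr, ∀ a b, a + b < μ i → jet row n (x (i, 0)) (x (i, 1)) a b f = 0) ∧
      (∀ i, i ∉ Fr → ∀ k < n, ∀ a < lam i k, tay (x (i, 0)) a (row k f) = 0) := by
  simp only [Sol, Submodule.mem_iInf, LinearMap.mem_ker]
  constructor
  · intro h
    refine ⟨fun k hk => ?_, fun i hi a b hab => ?_, fun i hi k hk a ha => ?_⟩
    · rw [mem_degreeLT, degree_lt_iff_coeff_zero]
      intro e he
      simpa [cond, hk, he] using h (Sum.inl (k, e))
    · simpa [cond, hi, hab] using h (Sum.inr (Sum.inl (i, a, b)))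
    · simpa [cond, hi, hk, ha] using h (Sum.inr (Sum.inr (i, k, a)))
  · rintro ⟨h1, h2, h3⟩ j
    rcases j with ⟨k, e⟩ | ⟨i, a, b⟩ | ⟨i, k, a⟩
    · simp only [cond]; split_ifs with h
      · have := h1 k h.1
        rw [mem_degreeLT, degree_lt_iff_coeff_zero] at this
        simpa using this e h.2
      · simp
    · simp only [cond]; split_ifs with h
      · exact h2 i h.1 a b h.2
      · simp
    · simp only [cond]; split_ifs with h
      · exact h3 i h.1 k h.2.1 a h.2.2
      · simp

/-- Generic dimension bound for a state. -/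
def Q (F : ℕ → ℕ) (Fr : Finset ι) (lam : ι → ℕ → ℕ) (y : ℕ) : Prop :=
  Generic (fun x : ι × Fin 2 → ℂ => finrank ℂ (Sol row n μ F Fr lam x) ≤ y)

theorem Q_of_exists [FiniteDimensional ℂ V] (F : ℕ → ℕ) (Fr : Finset ι) (lam : ι → ℕ → ℕ) (y : ℕ)
    (x0 : ι × Fin 2 → ℂ) (h : finrank ℂ (Sol row n μ F Fr lam x0) ≤ y) :
    Q row n μ F Fr lam y := by
  refine generic_of_exists
    (cond row n μ F Fr lam (fun z => (MvPolynomial.X z : MvPolynomial (ι × Fin 2) ℂ))) _ ?_ y x0 h
  intro x u
  simp only [Sol, Submodule.mem_iInf, LinearMap.mem_ker]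
  refine forall_congr' fun j => ?_
  have := map_cond row n μ (MvPolynomial.aeval x) F Fr lam
    (fun z => (MvPolynomial.X z : MvPolynomial (ι × Fin 2) ℂ)) j u
  simp only [MvPolynomial.aeval_X, MvPolynomial.aeval_eq_eval] at this
  rw [this]

/-- Validity of a labelling of the rows for a point of multiplicity `j`. -/
def Valid (c : ℕ → ℕ) (j : ℕ) (α : ℕ → ℕ) : Prop :=
  (∀ k k', α k ≠ 0 → α k = α k' → k = k') ∧
  ∀ k, α k ≠ 0 →
    α k + ((range k).filter (fun t => c t ≠ 0 ∧ ¬ (c t ≤ α t ∧ α t < α k))).card ≤ j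

/-- The many-layer differential Horace lemma. -/
theorem horace [FiniteDimensional ℂ V] (U : Submodule ℂ V) (c : ℕ → ℕ) (j : ℕ) (α : ℕ → ℕ)
    (hv : Valid c j α) (s : ℂ)
    (hW : ∀ f ∈ U, ∀ u < n, (∀ a < c u, tay s a (row u f) = 0) → row u f = 0)
    (hU : ∀ f ∈ U, (∀ k < n, ∀ a < α k, tay s a (row k f) = 0) → f = 0) :
    ∃ t, ∀ f ∈ U, (∀ a b, a + b < j → jet row n s t a b f = 0) → f = 0 := by
  classical
  let Φ : ℕ × ℕ → U →ₗ[ℂ] ℂ[X] := fun ab =>
    if ab.1 + ab.2 < j then
      ∑ u ∈ range n, (monomial u) ∘ₗ (LinearMap.mulLeft ℂ (u.choose ab.2 : ℂ)) ∘ₗ tay s ab.1 ∘ₗ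
        row u ∘ₗ U.subtype
    else 0
  have hΦ : ∀ a b, a + b < j → ∀ g : U, Φ (a, b) g =
      ∑ u ∈ range n, monomial u ((u.choose b : ℂ) * tay s a (row u g)) := by
    intro a b hab g
    simp [Φ, hab, LinearMap.sum_apply]
  rcases fam Φ with ⟨δ, hδ, H⟩ | ⟨G, -, hne, hG⟩
  · obtain ⟨t, -, ht⟩ := exists_good δ hδ ∅
    refine ⟨t, fun f hf h => ?_⟩
    have := H t ht ⟨f, hf⟩ (by
      rintro ⟨a, b⟩
      by_cases hab : a + b < j
      · rw [hΦ a b hab, eval_finsetSum]
        have h1 := h a b hab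
        rw [jet_apply] at h1
        have h2 : ∑ u ∈ range n, eval t (monomial u ((u.choose b : ℂ) * tay s a (row u f))) =
            t ^ b * ∑ k ∈ range n, (k.choose b : ℂ) * t ^ (k - b) * tay s a (row k f) := by
          rw [Finset.mul_sum]
          refine Finset.sum_congr rfl fun u _ => ?_
          rw [eval_monomial]
          rcases le_or_gt b u with hb | hb
          · have : t ^ u = t ^ b * t ^ (u - b) := by rw [← pow_add]; congr 1; omega
            rw [this]; ring
          · rw [Nat.choose_eq_zero_of_lt hb]; simp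
        exact h2.trans (by rw [h1, mul_zero])
      · simp [Φ, hab])
    simpa using this
  · exfalso
    let ν0 := Nat.find hne
    have hν0 : G ν0 ≠ 0 := Nat.find_spec hne
    have hlt : ∀ ν < ν0, G ν = 0 := fun ν hν => by
      by_contra h
      exact Nat.find_min hne hν h
    apply hν0
    apply Subtype.ext
    apply hU _ (G ν0).2
    intro k hk a ha
    set M := ν0 + k with hM
    let h : ℕ → ℂ[X] := fun u => if u < n then row u (G (M - u) : V) else 0
    have heq : ∀ a b, a + b < j →
        ∑ u ∈ range (M + 1), (u.choose b : ℂ) * tay s a (h u) = 0 := by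
      intro a b hab
      have h1 := hG (a, b) M
      rw [← Finset.sum_range_reflect] at h1
      rw [← h1]
      refine Finset.sum_congr rfl fun u hu => ?_
      rw [Finset.mem_range] at hu
      have e1 : M + 1 - 1 - u = M - u := by omega
      have e2 : M - (M - u) = u := by omega
      rw [e1, e2, hΦ a b hab, finsetSum_coeff]
      simp only [coeff_monomial, Finset.sum_ite_eq', Finset.mem_range, h]
      split_ifs <;> simp
    set Z := (range (M + 1)).filter (fun u => h u ≠ 0) with hZ
    have hvan : ∀ a, a + Z.card ≤ j → ∀ u ∈ range (M + 1), tay s a (h u) = 0 := by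
      intro a ha
      refine van (range (M + 1)) (j - a) (fun u => tay s a (h u))
        (fun i hi => heq a i (by omega)) ?_
      refine le_trans (Finset.card_le_card ?_) (show Z.card ≤ j - a by omega)
      intro u hu
      rw [Finset.mem_filter] at hu
      refine Finset.mem_filter.mpr ⟨hu.1, fun h0 => hu.2 (by rw [h0, map_zero])⟩
    have hk' : h k = row k (G ν0 : V) := by
      have : M - k = ν0 := by omega
      simp [h, hk, this]
    rw [← hk']
    by_contra hne'
    have hkM : k ∈ range (M + 1) := Finset.mem_range.mpr (by omega)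
    have hbig : j < a + Z.card := by
      by_contra hle
      exact hne' (hvan a (by omega) k hkM)
    have hZle : ∀ u ∈ Z, u ≤ k ∧ u < n := by
      intro u hu
      rw [Finset.mem_filter, Finset.mem_range] at hu
      have hun : u < n := by
        by_contra hn
        exact hu.2 (by simp [h, hn])
      refine ⟨?_, hun⟩
      by_contra hku
      apply hu.2
      have : G (M - u) = 0 := hlt _ (by omega)
      simp [h, this]
    have hZc : ∀ u ∈ Z, j + 1 - Z.card < c u := by
      intro u hu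
      by_contra hcu
      have hun := (hZle u hu).2
      have hu' := Finset.mem_filter.mp hu
      apply hu'.2
      have e : h u = row u (G (M - u) : V) := by simp [h, hun]
      rw [e]
      refine hW _ (G (M - u)).2 u hun fun a' ha' => ?_
      rw [← e]
      exact hvan a' (by omega) u hu'.1
    have hα : α k ≠ 0 := by omega
    have hval := hv.2 k hα
    set A := (range k).filter (fun t => c t ≠ 0 ∧ ¬ (c t ≤ α t ∧ α t < α k)) with hA
    set B := Z.filter (fun t => c t ≤ α t ∧ α t < α k) with hB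
    have hsub : Z ⊆ insert k (A ∪ B) := by
      intro u hu
      rw [Finset.mem_insert, Finset.mem_union]
      by_cases huk : u = k
      · exact Or.inl huk
      · right
        by_cases hb : c u ≤ α u ∧ α u < α k
        · exact Or.inr (Finset.mem_filter.mpr ⟨hu, hb⟩)
        · have := hZc u hu
          have := (hZle u hu).1
          exact Or.inl (Finset.mem_filter.mpr ⟨Finset.mem_range.mpr (by omega), by omega, hb⟩)
    have hBc : B.card ≤ (Finset.Ioo (j + 1 - Z.card) (α k)).card := by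
      apply Finset.card_le_card_of_injOn α
      · intro u hu
        have hu' := Finset.mem_filter.mp (Finset.mem_coe.mp hu)
        have := hZc u hu'.1
        exact Finset.mem_coe.mpr (Finset.mem_Ioo.mpr ⟨by omega, hu'.2.2⟩)
      · intro u hu u' _ he
        have hu' := Finset.mem_filter.mp (Finset.mem_coe.mp hu)
        have := hZc u hu'.1
        exact hv.1 u u' (by omega) he
    rw [Nat.card_Ioo] at hBc
    have h1 := Finset.card_le_card hsub
    have h2 := Finset.card_insert_le k (A ∪ B)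
    have h3 := Finset.card_union_le A B
    omega

end Pool.Agent.SHGH54
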